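import Pool.Agent.H639R3.G.Level

/-!
Project GA (MP_3ed42e_nt): an affine subspace `L_A` is of Groshev type if and only if
`|q| ^ n * ‖A q‖` is bounded below (`n = d + m`).  Statements of the parts.
-/

open MeasureTheory Set Metric
open Pool.Agent.H639R3.G

namespace Pool.Agent.Y762.GA

/-- the critical hypothesis, dyadic form -/
def Crit {d m : ℕ} (A : Matrix (Fin (d + 1)) (Fin m) ℝ) (c : ℝ) : Prop :=
  0 < c ∧ c ≤ 1 ∧ ∀ (j : ℕ) (q : Fin m → ℤ), q ≠ 0 → (∀ i, |q i| ≤ 2 ^ j) →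
    c / 2 ^ (j * (d + m)) ≤ distIntVec (ev A q)

/-- the sum of `1 / ‖A q‖` (adaptation of `card_small`, `sum_inv_le`, `sum_gq_le`) -/
def S_SUM : Prop := ∀ (d m : ℕ), 0 < d → ∀ (A : Matrix (Fin (d + 1)) (Fin m) ℝ) (c : ℝ),
  Crit A c → ∃ K : ℝ, 0 < K ∧ ∀ t : ℕ,
    ∑ q ∈ box m (2 ^ t), 1 / gq A q ≤ K * 2 ^ (t * (d + m))

/-- the union bound (adaptation of `volume_Bad_le`) -/
def S_BAD : Prop := ∀ (d m : ℕ), 0 < d → ∀ (A : Matrix (Fin (d + 1)) (Fin m) ℝ) (c : ℝ),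
  Crit A c → ∀ (x0 : Fin d → ℝ) (ρ κ : ℝ), 0 < ρ → 0 < κ →
    ∃ (C : ℝ) (t0 : ℕ), 0 < C ∧ ∀ t, t0 ≤ t → ∀ δ : ℝ, 0 ≤ δ →
      δ ≤ c / 2 / 2 ^ (t * (d + m)) →
        volume (Bad A x0 ρ t (κ * 2 ^ t) δ) ≤ ENNReal.ofReal (C * (2 ^ (t * (d + m)) * δ))

/-- the convergence half (adaptation of `groshevConvergence_of_hyp`) -/
def S_CONV : Prop := ∀ (d m : ℕ), 0 < d → 0 < m →
  ∀ (A : Matrix (Fin (d + 1)) (Fin m) ℝ) (c : ℝ), Crit A c → GroshevConvergence A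

/-- necessity of the criterion -/
def S_NEC : Prop := ∀ (d m : ℕ), 0 < d → 0 < m →
  ∀ (A : Matrix (Fin (d + 1)) (Fin m) ℝ), GroshevConvergence A →
    ∃ c : ℝ, 0 < c ∧ ∀ q : Fin m → ℤ, q ≠ 0 →
      c ≤ (supNorm q : ℝ) ^ (d + m) * distIntVec (ev A q)

/-- the points with an integral form with `|z| ≤ 2 ^ (t - k)` and value less than
`2 ^ (- t n - k)` -/
def U {d m : ℕ} (A : Matrix (Fin (d + 1)) (Fin m) ℝ) (k t : ℕ) : Set (Fin d → ℝ) :=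
  {x | ∃ (z : Fin (d + m) → ℤ) (p : ℤ), z ≠ 0 ∧ (∀ i, |z i| * 2 ^ k ≤ 2 ^ t) ∧
    |(p : ℝ) + ∑ i, (z i : ℝ) * point A x i| < 1 / 2 ^ (t * (d + m) + k)}

/-- the sets `U` are small -/
def S_UB : Prop := ∀ (d m : ℕ), 0 < d → ∀ (A : Matrix (Fin (d + 1)) (Fin m) ℝ) (c : ℝ),
  Crit A c → ∀ (x0 : Fin d → ℝ) (ρ σ : ℝ), 0 < ρ → 0 < σ →
    ∃ k t0 : ℕ, ∀ t, t0 ≤ t → volume (U A k t ∩ closedBall x0 ρ) ≤ ENNReal.ofReal σ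

/-- outside `U` there is a form of large slope with a small value (pigeonhole) -/
def S_PIG : Prop := ∀ (d m : ℕ), 0 < d → ∀ (A : Matrix (Fin (d + 1)) (Fin m) ℝ) (k : ℕ),
  ∃ r t0 : ℕ, ∀ t, t0 ≤ t → ∀ x : Fin d → ℝ, x ∉ U A k t →
    ∃ (z : Fin (d + m) → ℤ) (p : ℤ), z ≠ 0 ∧ (∀ i, |z i| ≤ 2 ^ (t + r)) ∧
      1 / 2 ^ (k + 1) * 2 ^ t <
        ‖bvec A (fun i => z (Fin.castAdd m i)) (fun j => z (Fin.natAdd d j))‖ ∧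
      |aff (p + acoef A (fun j => z (Fin.natAdd d j)))
        (bvec A (fun i => z (Fin.castAdd m i)) (fun j => z (Fin.natAdd d j))) x|
        < 1 / 2 ^ (t * (d + m))

/-- the data at one level -/
structure Lev {d m : ℕ} (A : Matrix (Fin (d + 1)) (Fin m) ℝ) (x0 : Fin d → ℝ) (ρ κ C3 : ℝ)
    (r t : ℕ) where
  u : Finset (Fin d → ℝ)
  a : (Fin d → ℝ) → ℝ
  b : (Fin d → ℝ) → (Fin d → ℝ)
  idx : (Fin d → ℝ) → Fin d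
  hu : ∀ x ∈ u, x ∈ closedBall x0 ρ
  hidx : ∀ x ∈ u, |b x (idx x)| = ‖b x‖
  hblo : ∀ x ∈ u, κ * 2 ^ t < ‖b x‖
  hbhi : ∀ x ∈ u, ‖b x‖ ≤ CA A * 2 ^ (t + r)
  hab : ∀ x ∈ u, ∃ (z : Fin (d + m) → ℤ) (p : ℤ), z ≠ 0 ∧ (∀ i, |z i| ≤ 2 ^ (t + r)) ∧
    a x = p + acoef A (fun j => z (Fin.natAdd d j)) ∧
    b x = bvec A (fun i => z (Fin.castAdd m i)) (fun j => z (Fin.natAdd d j))
  hval : ∀ x ∈ u, |aff (a x) (b x) x| ≤ 1 / 2 ^ (t * (d + m))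
  hdisj : (u : Set (Fin d → ℝ)).PairwiseDisjoint fun x => closedBall x (C3 * sc d m t)
  hr : C3 * sc d m t ≤ ρ
  hlow : (2 * ρ) ^ d / (2 * (5 * C3) ^ d) ≤ u.card * (2 * sc d m t) ^ d
  hup : u.card * (2 * sc d m t) ^ d ≤ 2 ^ d * (2 * ρ) ^ d

/-- existence of the data at one level (adaptation of `exists_level`) -/
def S_LEV : Prop := ∀ (d m : ℕ), 0 < d → ∀ (A : Matrix (Fin (d + 1)) (Fin m) ℝ)
  (x0 : Fin d → ℝ) (ρ κ C3 : ℝ) (r t : ℕ), 0 < ρ → 0 < κ → 1 ≤ C3 → C3 * sc d m t ≤ ρ →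
  ∀ G : Set (Fin d → ℝ), G ⊆ closedBall x0 ρ → volume (closedBall x0 ρ) ≤ 2 * volume G →
  (∀ x ∈ G, ∃ (z : Fin (d + m) → ℤ) (p : ℤ), z ≠ 0 ∧ (∀ i, |z i| ≤ 2 ^ (t + r)) ∧
      κ * 2 ^ t < ‖bvec A (fun i => z (Fin.castAdd m i)) (fun j => z (Fin.natAdd d j))‖ ∧
      |aff (p + acoef A (fun j => z (Fin.natAdd d j)))
        (bvec A (fun i => z (Fin.castAdd m i)) (fun j => z (Fin.natAdd d j))) x|
        < 1 / 2 ^ (t * (d + m))) →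
  Nonempty (Lev A x0 ρ κ C3 r t)

/-- a positive proportion of the ball lies in the limsup set (adaptation of the file
`H639R3/G/Div.lean` up to `exists_proportion`) -/
def S_PROP : Prop := ∀ (d m : ℕ), 0 < d → 0 < m →
  ∀ (A : Matrix (Fin (d + 1)) (Fin m) ℝ) (κ : ℝ) (r : ℕ), 0 < κ →
  ∃ η : ℝ, 0 < η ∧ ∀ ψ : ℕ → ℝ, Admissible ψ → ∀ (x0 : Fin d → ℝ) (ρ : ℝ), 0 < ρ →
    ∀ T : Set ℕ, (∀ t ∈ T, Nonempty (Lev A x0 ρ κ (d + 2 / κ) r t)) →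
    ¬ Summable (fun t : ℕ => T.indicator
      (fun t : ℕ => min (2 ^ (t * (d + m)) * ψ (2 ^ (t + r))) 1) t) →
    ∃ S : Set (Fin d → ℝ), MeasurableSet S ∧ S ⊆ closedBall x0 (2 * ρ) ∧
      (∀ x ∈ S, point A x ∈ W ψ) ∧ η * (2 * ρ) ^ d ≤ volume.real S

/-- weak type bound for the maximal function -/
def S_MAX : Prop := ∀ (d : ℕ) (V : Set (Fin d → ℝ)), 0 < d → volume V ≠ ⊤ →
  volume {x : Fin d → ℝ | ∃ ρ : ℝ, 0 < ρ ∧ ρ ≤ 1 ∧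
    volume (closedBall x ρ) < 2 * volume (V ∩ closedBall x ρ)} ≤ 2 * 5 ^ d * volume V

/-- almost every point belongs to few of the sets `M t`, in the mean with weights `ω` -/
def S_FAT : Prop := ∀ (X : Type) [MeasurableSpace X] (μ : Measure X) (B : Set X),
  MeasurableSet B → μ B ≠ ⊤ → ∀ M : ℕ → Set X, (∀ t, MeasurableSet (M t)) →
  ∀ ω : ℕ → ℝ, (∀ t, 0 ≤ ω t) → ¬ Summable ω → ∀ (σ : ℝ) (t0 : ℕ), 0 ≤ σ →
  (∀ t, t0 ≤ t → μ (M t) ≤ ENNReal.ofReal σ) →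
  μ {x | x ∈ B ∧ Summable (fun t : ℕ => {t | x ∉ M t}.indicator ω t)} ≤ ENNReal.ofReal σ

/-- the divergence half -/
def S_DIV : Prop := ∀ (d m : ℕ), 0 < d → 0 < m →
  ∀ (A : Matrix (Fin (d + 1)) (Fin m) ℝ) (c : ℝ), Crit A c → GroshevDivergence A

end Pool.Agent.Y762.GA
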