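import Pool.Agent.Y762.GA.Sum

/-!
The union bound at the critical exponent (adaptation of the starting file
`H639R3/G/Union.lean`).
-/

open MeasureTheory Set Metric
open Pool.Agent.H639R3.G

namespace Pool.Agent.Y762.GA

variable {d m : ℕ}

theorem gq_pos' {A : Matrix (Fin (d + 1)) (Fin m) ℝ} {β c : ℝ} (h : Hyp' A β c) {t : ℕ}
    {q : Fin m → ℤ} (hq : ∀ i, |q i| ≤ 2 ^ t) : c / β ^ t ≤ gq A q := by
  unfold gq
  split_ifs with h0
  · have hβ : 1 < β := lt_of_le_of_lt (one_le_pow₀ one_le_two) h.lo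
    have h3 : (1 : ℝ) ≤ β ^ t := one_le_pow₀ hβ.le
    have := h.cle
    have := h.cpos
    rw [div_le_one (by positivity)]
    linarith
  · exact h.bd t q h0 hq

theorem volume_Bad_le' (hd : 0 < d) {A : Matrix (Fin (d + 1)) (Fin m) ℝ} {β c : ℝ}
    (h : Hyp' A β c) (hβd : β = 2 ^ (d + m)) {K : ℝ} (hK : 0 < K)
    (hsum : ∀ t : ℕ, ∑ q ∈ box m (2 ^ t), 1 / gq A q ≤ K * β ^ t)
    (x0 : Fin d → ℝ) {ρ κ : ℝ} (hρ : 0 < ρ) (hκ : 0 < κ) :
    ∃ (C : ℝ) (t0 : ℕ), 0 < C ∧ ∀ t, t0 ≤ t → ∀ δ : ℝ, 0 ≤ δ →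
      δ ≤ c / 2 / 2 ^ (t * (d + m)) →
      volume (Bad A x0 ρ t (κ * 2 ^ t) δ)
        ≤ ENNReal.ofReal (C * (2 ^ (t * (d + m)) * δ)) := by
  classical
  have hβ : 1 < β := lt_of_le_of_lt (one_le_pow₀ one_le_two) h.lo
  have hc := h.cpos
  set R := ‖x0‖ + ρ with hR
  have hR0 : 0 ≤ R := by positivity
  set K1 := 2 * (d * R + 1) with hK1
  have hK1pos : 0 < K1 := by positivity
  set K2 := 2 * K1 / ρ with hK2
  have hK2pos : 0 < K2 := by positivity
  set K3 := K2 * (2 / ρ + 1) ^ d * K with hK3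
  have hK3pos : 0 < K3 := by positivity
  have e3 : ∀ᶠ t : ℕ in Filter.atTop, 1 / κ ≤ (2 : ℝ) ^ t :=
    (tendsto_pow_atTop_atTop_of_one_lt (one_lt_two)).eventually_ge_atTop _
  have e4 : ∀ᶠ t : ℕ in Filter.atTop, 1 ≤ t := Filter.eventually_ge_atTop 1
  obtain ⟨t0, ht0⟩ := Filter.eventually_atTop.1 (e3.and e4)
  refine ⟨(2 * ρ) ^ d * ((2 * d + 2) * 3 ^ (d + m) * κ ^ d + K3), t0, by positivity,
    fun t ht δ hδ0 hδ => ?_⟩
  obtain ⟨f3, f4⟩ := ht0 t ht
  have hpowt : β ^ t = 2 ^ (t * (d + m)) := by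
    rw [hβd, ← pow_mul, mul_comm (d + m) t]
  have hcle := h.cle
  have hδhalf : δ ≤ 1 / 2 := by
    refine hδ.trans ?_
    refine (div_le_self (by positivity) (one_le_pow₀ one_le_two)).trans ?_
    linarith
  have hδg : ∀ q : Fin m → ℤ, (∀ i, |q i| ≤ 2 ^ t) → δ ≤ gq A q / 2 := by
    intro q hq
    have h1 := gq_pos' h hq
    have h2 : δ ≤ c / β ^ t / 2 := by
      refine hδ.trans (le_of_eq ?_)
      rw [hpowt]; ring
    linarith
  have hgpos : ∀ q : Fin m → ℤ, (∀ i, |q i| ≤ 2 ^ t) → 0 < gq A q := by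
    intro q hq
    exact lt_of_lt_of_le (by positivity) (gq_pos' h hq)
  set lam := κ * 2 ^ t with hlam
  have hlam1 : 1 ≤ lam := by
    rw [div_le_iff₀ hκ] at f3; linarith
  have hlam0 : 0 ≤ lam := by linarith
  -- single sets
  set S : (Fin m → ℤ) → (Fin d → ℤ) → Set (Fin d → ℝ) := fun q q' =>
    {x | x ∈ closedBall x0 ρ ∧ ¬ (q' = 0 ∧ q = 0) ∧
      ∃ p : ℤ, |p + aff (acoef A q) (bvec A q' q) x| < δ} with hS
  have hcover : Bad A x0 ρ t lam δ ⊆ ⋃ q ∈ box m (2 ^ t), ⋃ q' ∈ slopeBox A q lam, S q q' := by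
    rintro x ⟨hx, q', q, p, h1, h2, h3, h4⟩
    simp only [mem_iUnion]
    exact ⟨q, mem_box.2 (by simpa using h2), q', (mem_slopeBox hlam0).2 h3, hx, h1, p, h4⟩
  set T : (Fin m → ℤ) → (Fin d → ℤ) → ℝ := fun q q' =>
    (2 * ρ) ^ d * δ * (2 * d + 2 + (if ‖bvec A q' q‖ ≤ 1 / ρ then K2 / gq A q else 0)) with hT
  have hTnn : ∀ q ∈ box m (2 ^ t), ∀ q', 0 ≤ T q q' := by
    intro q hq q'
    have := hgpos q (by simpa using mem_box.1 hq)
    simp only [hT]
    split_ifs <;> positivity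
  have hsingle : ∀ q ∈ box m (2 ^ t), ∀ q' ∈ slopeBox A q lam,
      volume (S q q') ≤ ENNReal.ofReal (T q q') := by
    intro q hq q' _
    have hqb : ∀ i, |q i| ≤ 2 ^ t := by simpa using mem_box.1 hq
    have hg := hgpos q hqb
    by_cases hemp : (S q q').Nonempty
    · obtain ⟨x, hx, hne, p, hp⟩ := hemp
      have hxR : ‖x‖ ≤ R := by
        have h1 := mem_closedBall.1 hx
        have h2 : ‖x‖ ≤ ‖x0‖ + ‖x - x0‖ := by
          calc ‖x‖ = ‖x0 + (x - x0)‖ := by congr 1; abel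
            _ ≤ _ := norm_add_le _ _
        rw [dist_eq_norm] at h1
        linarith
      have hbge := norm_bvec_ge hne hR0 hxR hp (hδg q hqb)
      have hbpos : 0 < ‖bvec A q' q‖ := lt_of_lt_of_le (by positivity) hbge
      have h1 : volume (S q q') ≤ ENNReal.ofReal ((2 * ρ) ^ d * δ
          * (2 * d + 2 / (ρ * ‖bvec A q' q‖))) := by
        refine le_trans (measure_mono ?_)
          (volume_near_int_le hd (acoef A q) (bvec A q' q) x0 hbpos hρ hδ0 hδhalf)
        rintro y ⟨hy, _, hp⟩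
        exact ⟨hy, hp⟩
      refine h1.trans (ENNReal.ofReal_le_ofReal ?_)
      simp only [hT]
      have hnn : 0 ≤ (2 * ρ) ^ d * δ := by positivity
      apply mul_le_mul_of_nonneg_left _ hnn
      split_ifs with hb
      · have h2 : 2 / (ρ * ‖bvec A q' q‖) ≤ K2 / gq A q := by
          rw [hK2, div_div, div_le_div_iff₀ (by positivity) (by positivity)]
          rw [div_le_iff₀ hK1pos] at hbge
          nlinarith
        linarith
      · push Not at hb
        have h2 : 2 / (ρ * ‖bvec A q' q‖) ≤ 2 := by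
          rw [div_le_iff₀ (by positivity)]
          rw [div_lt_iff₀ hρ] at hb
          nlinarith
        linarith
    · rw [not_nonempty_iff_eq_empty.1 hemp, measure_empty]
      exact zero_le
  have hstep : volume (Bad A x0 ρ t lam δ)
      ≤ ∑ q ∈ box m (2 ^ t), ∑ q' ∈ slopeBox A q lam, ENNReal.ofReal (T q q') := by
    refine (measure_mono hcover).trans ((measure_biUnion_finset_le _ _).trans ?_)
    apply Finset.sum_le_sum
    intro q hq
    refine (measure_biUnion_finset_le _ _).trans ?_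
    exact Finset.sum_le_sum fun q' hq' => hsingle q hq q' hq'
  refine hstep.trans ?_
  have hofReal : ∑ q ∈ box m (2 ^ t), ∑ q' ∈ slopeBox A q lam, ENNReal.ofReal (T q q')
      = ENNReal.ofReal (∑ q ∈ box m (2 ^ t), ∑ q' ∈ slopeBox A q lam, T q q') := by
    rw [ENNReal.ofReal_sum_of_nonneg fun q hq => Finset.sum_nonneg fun q' _ => hTnn q hq q']
    apply Finset.sum_congr rfl
    intro q hq
    rw [ENNReal.ofReal_sum_of_nonneg fun q' _ => hTnn q hq q']
  rw [hofReal]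
  apply ENNReal.ofReal_le_ofReal
  have hinner : ∀ q ∈ box m (2 ^ t), ∑ q' ∈ slopeBox A q lam, T q q'
      ≤ (2 * ρ) ^ d * δ * ((2 * d + 2) * (3 * lam) ^ d
        + K2 * (2 / ρ + 1) ^ d * (1 / gq A q)) := by
    intro q hq
    have hg := hgpos q (by simpa using mem_box.1 hq)
    simp only [hT]
    rw [← Finset.mul_sum, Finset.sum_add_distrib]
    apply mul_le_mul_of_nonneg_left _ (by positivity)
    apply add_le_add
    · rw [Finset.sum_const, nsmul_eq_mul, mul_comm]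
      apply mul_le_mul_of_nonneg_left _ (by positivity)
      refine (card_slopeBox_le A q hlam0).trans ?_
      apply pow_le_pow_left₀ (by positivity)
      linarith
    · rw [← Finset.sum_filter, Finset.sum_const, nsmul_eq_mul]
      have hcard : (((slopeBox A q lam).filter (fun q' => ‖bvec A q' q‖ ≤ 1 / ρ)).card : ℝ)
          ≤ (2 / ρ + 1) ^ d := by
        have h1 : ((slopeBox A q lam).filter (fun q' => ‖bvec A q' q‖ ≤ 1 / ρ))
            ⊆ slopeBox A q (1 / ρ) := by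
          intro q' hq'
          exact (mem_slopeBox (by positivity)).2 (Finset.mem_filter.1 hq').2
        have h2 := card_slopeBox_le A q (lam := 1 / ρ) (by positivity)
        have h3 : (((slopeBox A q lam).filter (fun q' => ‖bvec A q' q‖ ≤ 1 / ρ)).card : ℝ)
          ≤ ((slopeBox A q (1 / ρ)).card : ℝ) := by exact_mod_cast Finset.card_le_card h1
        refine h3.trans (h2.trans (le_of_eq ?_))
        congr 2; ring
      calc _ ≤ (2 / ρ + 1) ^ d * (K2 / gq A q) := by gcongr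
        _ = _ := by ring
  refine (Finset.sum_le_sum hinner).trans ?_
  rw [← Finset.mul_sum, Finset.sum_add_distrib, Finset.sum_const, nsmul_eq_mul, ← Finset.mul_sum]
  have hboxc : ((box m (2 ^ t)).card : ℝ) ≤ (3 * 2 ^ t) ^ m := by
    exact_mod_cast card_box_le (m := m) (N := 2 ^ t) Nat.one_le_two_pow
  have g1 : ((box m (2 ^ t)).card : ℝ) * ((2 * d + 2) * (3 * lam) ^ d)
      ≤ (2 * d + 2) * 3 ^ (d + m) * κ ^ d * 2 ^ (t * (d + m)) := by
    calc ((box m (2 ^ t)).card : ℝ) * ((2 * d + 2) * (3 * lam) ^ d)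
        ≤ (3 * 2 ^ t) ^ m * ((2 * d + 2) * (3 * lam) ^ d) := by gcongr
      _ = (2 * d + 2) * 3 ^ (d + m) * κ ^ d * 2 ^ (t * (d + m)) := by
        rw [hlam, mul_pow, mul_pow, mul_pow, pow_add, mul_add, pow_add, pow_mul, pow_mul]
        ring
  have g2 : K2 * (2 / ρ + 1) ^ d * ∑ q ∈ box m (2 ^ t), 1 / gq A q
      ≤ K3 * 2 ^ (t * (d + m)) := by
    calc K2 * (2 / ρ + 1) ^ d * ∑ q ∈ box m (2 ^ t), 1 / gq A q
        ≤ K2 * (2 / ρ + 1) ^ d * (K * β ^ t) := by
          have := hsum t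
          gcongr
      _ = K3 * 2 ^ (t * (d + m)) := by rw [hpowt, hK3]; ring
  calc (2 * ρ) ^ d * δ * (((box m (2 ^ t)).card : ℝ) * ((2 * d + 2) * (3 * lam) ^ d)
        + K2 * (2 / ρ + 1) ^ d * ∑ q ∈ box m (2 ^ t), 1 / gq A q)
      ≤ (2 * ρ) ^ d * δ * ((2 * d + 2) * 3 ^ (d + m) * κ ^ d * 2 ^ (t * (d + m))
        + K3 * 2 ^ (t * (d + m))) := by gcongr
    _ = _ := by ring

theorem t_BAD : S_BAD := by
  intro d m hd A c h x0 ρ κ hρ hκ
  obtain ⟨K, hK, hs⟩ := sum_gq_le' (h.hyp hd)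
  exact volume_Bad_le' hd (h.hyp hd) rfl hK hs x0 hρ hκ

end Pool.Agent.Y762.GA
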