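import Pool.Agent.Y762.GA.Stm

/-!
The divergence half: assembly.
-/

open MeasureTheory Set Metric
open Pool.Agent.H639R3.G

namespace Pool.Agent.Y762.GA

variable {d m : ℕ}

theorem not_summable_weights (hd : 0 < d) (ψ : ℕ → ℝ) (hψ : Admissible ψ) (r : ℕ)
    (hdiv : ¬ Summable (fun k : ℕ => (k : ℝ) ^ (d + m - 1) * ψ k)) (hm : 0 < m) :
    ¬ Summable (fun t : ℕ => min ((2 : ℝ) ^ (t * (d + m)) * ψ (2 ^ (t + r))) 1) := by
  intro hs
  apply hdiv
  rw [summable_condensed_iff' (n := d + m) (by omega) hψ]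
  rw [← summable_nat_add_iff r]
  have hlim := hs.tendsto_atTop_zero
  obtain ⟨N, hN⟩ := Filter.eventually_atTop.1 (hlim.eventually_lt_const (show (0 : ℝ) < 1 by
    norm_num))
  have h1 : Summable (fun t : ℕ => (2 : ℝ) ^ (t * (d + m)) * ψ (2 ^ (t + r))) := by
    rw [← summable_nat_add_iff N] at hs ⊢
    refine hs.congr fun t => ?_
    have h1 : min ((2 : ℝ) ^ ((t + N) * (d + m)) * ψ (2 ^ (t + N + r))) 1 < 1 :=
      hN (t + N) (by omega)
    rcases min_choice ((2 : ℝ) ^ ((t + N) * (d + m)) * ψ (2 ^ (t + N + r))) 1 with h2 | h2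
    · rw [h2]
    · rw [h2] at h1; exact absurd h1 (lt_irrefl _)
  have h2 := h1.mul_left ((2 : ℝ) ^ (r * (d + m)))
  refine h2.congr fun t => ?_
  rw [add_mul, pow_add]
  ring

theorem tendsto_sc (hd : 0 < d) (m : ℕ) (C3 : ℝ) :
    Filter.Tendsto (fun t : ℕ => C3 * sc d m t) Filter.atTop (nhds 0) := by
  have h1 : (fun t : ℕ => C3 * sc d m t) = fun t => C3 * ((1 / 2 ^ (d + m + 1)) ^ t) := by
    ext t
    unfold sc
    rw [one_div_pow, ← pow_mul, mul_comm t]
  rw [h1, ← mul_zero C3]
  apply Filter.Tendsto.const_mul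
  apply tendsto_pow_atTop_nhds_zero_of_lt_one (by positivity)
  rw [div_lt_one (by positivity)]
  exact one_lt_pow₀ one_lt_two (by omega)

theorem t_DIV (hUB : S_UB) (hPIG : S_PIG) (hLEV : S_LEV) (hPROP : S_PROP) (hMAX : S_MAX)
    (hFAT : S_FAT) : S_DIV := by
  intro d m hd hm A c hA ψ hψ hdiv
  set S : Set (Fin d → ℝ) := {x | point A x ∉ W ψ} with hS
  have key : ∀ (R : ℕ) (σ : ℝ), 0 < σ →
      volume (S ∩ closedBall (0 : Fin d → ℝ) R) ≤ ENNReal.ofReal σ := by
    intro R σ hσ
    obtain ⟨k, t0, hU⟩ := hUB d m hd A c hA 0 (R + 1) (σ / (2 * 5 ^ d)) (by positivity)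
      (by positivity)
    obtain ⟨r, t1, hP⟩ := hPIG d m hd A k
    set κ : ℝ := 1 / 2 ^ (k + 1) with hκ
    have hκ0 : 0 < κ := by positivity
    obtain ⟨η, hη, hη'⟩ := hPROP d m hd hm A κ r hκ0
    set V : ℕ → Set (Fin d → ℝ) := fun t => U A k t ∩ closedBall 0 (R + 1) with hV
    set M0 : ℕ → Set (Fin d → ℝ) := fun t => {x | ∃ ρ : ℝ, 0 < ρ ∧ ρ ≤ 1 ∧
      volume (closedBall x ρ) < 2 * volume (V t ∩ closedBall x ρ)} with hM0
    set M : ℕ → Set (Fin d → ℝ) := fun t => toMeasurable volume (M0 t) with hM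
    have hMm : ∀ t, t0 ≤ t → volume (M t) ≤ ENNReal.ofReal σ := by
      intro t ht
      have h1 : volume (V t) ≤ ENNReal.ofReal (σ / (2 * 5 ^ d)) := hU t ht
      have h2 : volume (V t) ≠ ⊤ := ne_top_of_le_ne_top ENNReal.ofReal_ne_top h1
      calc volume (M t) = volume (M0 t) := measure_toMeasurable _
        _ ≤ 2 * 5 ^ d * volume (V t) := hMAX d (V t) hd h2
        _ ≤ 2 * 5 ^ d * ENNReal.ofReal (σ / (2 * 5 ^ d)) := by gcongr
        _ = ENNReal.ofReal σ := by
          have h3 : (2 * 5 ^ d : ENNReal) = ENNReal.ofReal (2 * 5 ^ d) := by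
            rw [ENNReal.ofReal_mul (by norm_num), ENNReal.ofReal_pow (by norm_num)]
            simp
          rw [h3, ← ENNReal.ofReal_mul (by positivity)]
          congr 1
          field_simp
    set ω : ℕ → ℝ := fun t => min ((2 : ℝ) ^ (t * (d + m)) * ψ (2 ^ (t + r))) 1 with hω
    have hω0 : ∀ t, 0 ≤ ω t := by
      intro t
      have := hψ.1 (2 ^ (t + r)) Nat.one_le_two_pow
      exact le_min (by positivity) zero_le_one
    have hωdiv : ¬ Summable ω := not_summable_weights hd ψ hψ r hdiv hm
    set N : Set (Fin d → ℝ) := {x | x ∈ closedBall (0 : Fin d → ℝ) R ∧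
      Summable (fun t : ℕ => {t | x ∉ M t}.indicator ω t)} with hN
    have hNle : volume N ≤ ENNReal.ofReal σ :=
      hFAT (Fin d → ℝ) volume (closedBall 0 R) measurableSet_closedBall
        (by rw [Real.volume_pi_closedBall _ (by positivity)]; exact ENNReal.ofReal_ne_top)
        M (fun t => measurableSet_toMeasurable _ _) ω hω0 hωdiv σ t0 hσ.le hMm
    set N' := toMeasurable volume N with hN'
    set Gd : Set (Fin d → ℝ) := closedBall 0 R \ N' with hGd
    have hGdm : MeasurableSet Gd := measurableSet_closedBall.diff (measurableSet_toMeasurable _ _)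
    set S' : Set (Fin d → ℝ) := S ∩ Gd with hS'
    -- the ratio at good points
    have hball : ∀ x0 ∈ Gd, ∀ ρ : ℝ, 0 < ρ → ρ ≤ 1 →
        volume (S' ∩ closedBall x0 ρ) / volume (closedBall x0 ρ)
          ≤ ENNReal.ofReal (1 - η / 2 ^ d) := by
      intro x0 hx0 ρ' hρ' hρ'1
      set ρ : ℝ := ρ' / 2 with hρdef
      have hρ : 0 < ρ := by positivity
      have hρ1 : ρ ≤ 1 := by rw [hρdef]; linarith
      have hx0R : x0 ∈ closedBall (0 : Fin d → ℝ) R := hx0.1
      have hx0N : x0 ∉ N := fun h => hx0.2 (subset_toMeasurable _ _ h)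
      have hdivx : ¬ Summable (fun t : ℕ => {t | x0 ∉ M t}.indicator ω t) := fun h =>
        hx0N ⟨hx0R, h⟩
      have hC31 : 1 ≤ (d : ℝ) + 2 / κ := by
        have h1 : (1 : ℝ) ≤ d := by exact_mod_cast hd
        have h2 : 0 < 2 / κ := by positivity
        linarith
      obtain ⟨t2, ht2⟩ := Filter.eventually_atTop.1
        ((tendsto_sc hd m ((d : ℝ) + 2 / κ)).eventually_le_const hρ)
      set T : Set ℕ := {t | x0 ∉ M t ∧ t1 ≤ t ∧ t2 ≤ t} with hT
      have hTL : ∀ t ∈ T, Nonempty (Lev A x0 ρ κ (d + 2 / κ) r t) := by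
        rintro t ⟨ht, ht1, ht2'⟩
        have hsub : closedBall x0 ρ ⊆ closedBall (0 : Fin d → ℝ) (R + 1) := by
          apply closedBall_subset_closedBall'
          have := mem_closedBall.1 hx0R
          linarith
        have hhalf : 2 * volume (V t ∩ closedBall x0 ρ) ≤ volume (closedBall x0 ρ) := by
          by_contra hcon
          push Not at hcon
          exact ht (subset_toMeasurable _ _ ⟨ρ, hρ, hρ1, hcon⟩)
        have hfin : volume (closedBall x0 ρ) ≠ ⊤ := by
          rw [Real.volume_pi_closedBall _ (by positivity)]; exact ENNReal.ofReal_ne_top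
        refine hLEV d m hd A x0 ρ κ (d + 2 / κ) r t hρ hκ0 hC31 (ht2 t ht2')
          (closedBall x0 ρ \ U A k t) sdiff_subset ?_ ?_
        · have h1 : volume (closedBall x0 ρ) ≤ volume (V t ∩ closedBall x0 ρ)
              + volume (closedBall x0 ρ \ U A k t) := by
            refine le_trans (measure_mono ?_) (measure_union_le _ _)
            intro y hy
            by_cases hyU : y ∈ U A k t
            · exact Or.inl ⟨⟨hyU, hsub hy⟩, hy⟩
            · exact Or.inr ⟨hy, hyU⟩
          have h2 : volume (closedBall x0 ρ) + volume (closedBall x0 ρ)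
              ≤ volume (closedBall x0 ρ) + 2 * volume (closedBall x0 ρ \ U A k t) := by
            calc volume (closedBall x0 ρ) + volume (closedBall x0 ρ)
                = 2 * volume (closedBall x0 ρ) := (two_mul _).symm
              _ ≤ 2 * (volume (V t ∩ closedBall x0 ρ)
                + volume (closedBall x0 ρ \ U A k t)) := by gcongr
              _ = 2 * volume (V t ∩ closedBall x0 ρ)
                + 2 * volume (closedBall x0 ρ \ U A k t) := mul_add _ _ _
              _ ≤ _ := by gcongr
          exact (ENNReal.add_le_add_iff_left hfin).1 h2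
        · rintro x ⟨_, hx⟩
          exact hP t ht1 x hx
      have hTdiv : ¬ Summable (fun t : ℕ => T.indicator ω t) := by
        intro hs
        apply hdivx
        rw [← summable_nat_add_iff (max t1 t2)] at hs ⊢
        refine hs.congr fun t => ?_
        by_cases h : x0 ∈ M (t + max t1 t2)
        · rw [indicator_of_notMem, indicator_of_notMem]
          · exact fun h' => h' h
          · exact fun h' => h'.1 h
        · rw [indicator_of_mem, indicator_of_mem]
          · exact h
          · exact ⟨h, by omega, by omega⟩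
      obtain ⟨G, hGm, hGsub, hGW, hGvol⟩ := hη' ψ hψ x0 ρ hρ T hTL hTdiv
      have e1 : 2 * ρ = ρ' := by rw [hρdef]; ring
      rw [e1] at hGsub hGvol
      have hfinball : volume (closedBall x0 ρ') ≠ ⊤ := by
        rw [Real.volume_pi_closedBall _ (by positivity)]; exact ENNReal.ofReal_ne_top
      have hsub : S' ∩ closedBall x0 ρ' ⊆ closedBall x0 ρ' \ G := by
        rintro x ⟨hx1, hx2⟩
        exact ⟨hx2, fun hxG => hx1.1 (hGW x hxG)⟩
      have hfinG : volume G ≠ ⊤ := ne_top_of_le_ne_top hfinball (measure_mono hGsub)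
      have h1 : volume (S' ∩ closedBall x0 ρ') ≤ ENNReal.ofReal ((2 * ρ') ^ d - η * ρ' ^ d) := by
        refine (measure_mono hsub).trans ?_
        rw [measure_sdiff hGsub hGm.nullMeasurableSet hfinG, Real.volume_pi_closedBall _ hρ'.le,
          Fintype.card_fin, ENNReal.ofReal_sub _ (by positivity)]
        apply tsub_le_tsub_left
        exact ENNReal.ofReal_le_of_le_toReal hGvol
      have h2 : volume (closedBall x0 ρ') = ENNReal.ofReal ((2 * ρ') ^ d) := by
        rw [Real.volume_pi_closedBall _ hρ'.le, Fintype.card_fin]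
      rw [h2]
      apply ENNReal.div_le_of_le_mul
      refine h1.trans ?_
      rw [← ENNReal.ofReal_mul' (by positivity)]
      apply ENNReal.ofReal_le_ofReal
      rw [sub_mul, one_mul, mul_pow]
      apply le_of_eq
      field_simp
    have hS'0 : volume S' = 0 := by
      have hlim := Besicovitch.ae_tendsto_measure_inter_div (volume : Measure (Fin d → ℝ)) S'
      have hmem : ∀ᵐ x ∂(volume.restrict S'), x ∈ Gd :=
        ae_restrict_of_ae_restrict_of_subset inter_subset_right (ae_restrict_mem hGdm)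
      have hfalse : ∀ᵐ x ∂(volume.restrict S'), False := by
        filter_upwards [hlim, hmem] with x hx hxG
        have h1 : ∀ᶠ r : ℝ in nhdsWithin 0 (Ioi 0),
            volume (S' ∩ closedBall x r) / volume (closedBall x r)
              ≤ ENNReal.ofReal (1 - η / 2 ^ d) := by
          filter_upwards [self_mem_nhdsWithin,
            mem_nhdsWithin_of_mem_nhds (Iio_mem_nhds (zero_lt_one))] with r hr hr1
          exact hball x hxG r hr (le_of_lt hr1)
        have h2 := le_of_tendsto hx h1
        have h3 : ENNReal.ofReal (1 - η / 2 ^ d) < 1 := by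
          rw [ENNReal.ofReal_lt_one]
          have : 0 < η / 2 ^ d := by positivity
          linarith
        exact absurd h3 (not_lt.2 h2)
      have h0 : volume.restrict S' = 0 := by
        rw [Filter.eventually_false_iff_eq_bot, ae_eq_bot] at hfalse
        exact hfalse
      exact Measure.restrict_eq_zero.1 h0
    calc volume (S ∩ closedBall (0 : Fin d → ℝ) R) ≤ volume (S' ∪ N') := by
          apply measure_mono
          rintro x ⟨hx1, hx2⟩
          by_cases h : x ∈ N'
          · exact Or.inr h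
          · exact Or.inl ⟨hx1, hx2, h⟩
      _ ≤ volume S' + volume N' := measure_union_le _ _
      _ ≤ ENNReal.ofReal σ := by
          rw [hS'0, zero_add, measure_toMeasurable]; exact hNle
  have hzero : ∀ R : ℕ, volume (S ∩ closedBall (0 : Fin d → ℝ) R) = 0 := by
    intro R
    by_contra hne
    have hfin : volume (S ∩ closedBall (0 : Fin d → ℝ) R) ≠ ⊤ :=
      ne_top_of_le_ne_top ENNReal.ofReal_ne_top (key R 1 one_pos)
    set v := (volume (S ∩ closedBall (0 : Fin d → ℝ) R)).toReal with hv
    have hv0 : 0 < v := ENNReal.toReal_pos hne hfin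
    have h1 := key R (v / 2) (by positivity)
    have h2 : volume (S ∩ closedBall (0 : Fin d → ℝ) R) = ENNReal.ofReal v :=
      (ENNReal.ofReal_toReal hfin).symm
    rw [h2, ENNReal.ofReal_le_ofReal_iff (by positivity)] at h1
    linarith
  have hcov : S ⊆ ⋃ R : ℕ, S ∩ closedBall (0 : Fin d → ℝ) R := by
    intro x hx
    obtain ⟨R, hR⟩ := exists_nat_ge ‖x‖
    refine mem_iUnion.2 ⟨R, hx, ?_⟩
    rw [mem_closedBall, dist_zero_right]; exact hR
  exact measure_mono_null hcov (measure_iUnion_null hzero)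

end Pool.Agent.Y762.GA
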