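import Pool.Agent.Y762.GA.Stm

/-!
Existence of the data at one level (adaptation of the starting file `H639R3/G/Level.lean`).
-/

open MeasureTheory Set Metric
open Pool.Agent.H639R3.G

namespace Pool.Agent.Y762.GA

theorem t_LEV : S_LEV := by
  classical
  intro d m hd A x0 ρ κ C3 r0 t hρ hκ hC3 hrρ G hGsub hGvol hgood
  set s := sc d m t with hs
  have hspos : 0 < s := sc_pos d m t
  set r := C3 * s with hr
  have hrpos : 0 < r := by positivity
  choose! z p hz0 hzb hzlo hzval using hgood
  have hidx : ∀ x : Fin d → ℝ, ∃ i, |bvec A (fun i => z x (Fin.castAdd m i))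
      (fun j => z x (Fin.natAdd d j)) i| = ‖bvec A (fun i => z x (Fin.castAdd m i))
      (fun j => z x (Fin.natAdd d j))‖ := fun x => exists_max_coord hd _
  choose idx hidx using hidx
  -- Vitali
  obtain ⟨v, hvG, hvdisj, hvcov⟩ := Vitali.exists_disjoint_subfamily_covering_enlargement_closedBall
    G (fun x => x) (fun _ => r) r (fun _ _ => le_rfl) 5 (by norm_num)
  have hsubball : ∀ x ∈ v, closedBall x r ⊆ closedBall x0 (2 * ρ) := by
    intro x hx
    apply closedBall_subset_closedBall'
    have := mem_closedBall.1 (hGsub (hvG hx))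
    linarith
  have hvfin : v.Finite := by
    have h1 := Measure.finite_const_le_meas_of_disjoint_iUnion (volume : Measure (Fin d → ℝ))
      (ε := ENNReal.ofReal ((2 * r) ^ d)) (by rw [ENNReal.ofReal_pos]; positivity)
      (As := fun x : v => closedBall (x : Fin d → ℝ) r) (fun x => measurableSet_closedBall)
      (fun x y hxy => hvdisj x.2 y.2 (fun h => hxy (Subtype.ext h)))
      (by
        apply ne_top_of_le_ne_top (b := volume (closedBall x0 (2 * ρ)))
        · rw [Real.volume_pi_closedBall _ (by positivity)]; exact ENNReal.ofReal_ne_top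
        · apply measure_mono
          exact iUnion_subset fun x => hsubball x x.2)
    have h2 : {x : v | ENNReal.ofReal ((2 * r) ^ d) ≤ volume (closedBall (x : Fin d → ℝ) r)}
        = univ := by
      ext x
      simp only [mem_ofPred_eq, mem_univ, iff_true]
      rw [Real.volume_pi_closedBall _ hrpos.le, Fintype.card_fin]
    rw [h2] at h1
    have h3 : Finite v := Set.finite_univ_iff.1 h1
    exact Set.toFinite v
  set u := hvfin.toFinset with hu
  have hmem : ∀ x, x ∈ u ↔ x ∈ v := fun x => hvfin.mem_toFinset
  have hudisj : (u : Set (Fin d → ℝ)).PairwiseDisjoint fun x => closedBall x r := by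
    intro x hx y hy hxy
    exact hvdisj ((hmem x).1 hx) ((hmem y).1 hy) hxy
  have hC3pos : 0 < C3 := by linarith
  refine ⟨⟨u, fun x => p x + acoef A (fun j => z x (Fin.natAdd d j)),
    fun x => bvec A (fun i => z x (Fin.castAdd m i)) (fun j => z x (Fin.natAdd d j)), idx,
    fun x hx => hGsub (hvG ((hmem x).1 hx)), fun x _ => hidx x,
    fun x hx => hzlo x (hvG ((hmem x).1 hx)), ?_, ?_,
    fun x hx => (hzval x (hvG ((hmem x).1 hx))).le, hudisj, hrρ, ?_, ?_⟩⟩
  · intro x hx
    have hb := hzb x (hvG ((hmem x).1 hx))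
    apply norm_bvec_le A (by positivity)
    · intro i
      have := hb (Fin.castAdd m i)
      rw [← Int.cast_abs]; exact_mod_cast this
    · intro j
      have := hb (Fin.natAdd d j)
      rw [← Int.cast_abs]; exact_mod_cast this
  · intro x hx
    have hxG := hvG ((hmem x).1 hx)
    exact ⟨z x, p x, hz0 x hxG, hzb x hxG, rfl, rfl⟩
  · -- lower bound for the cardinality
    have hGle : volume G ≤ ENNReal.ofReal (u.card * (2 * (5 * r)) ^ d) := by
      have hcov : G ⊆ ⋃ x ∈ u, closedBall x (5 * r) := by
        intro y hy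
        obtain ⟨b, hb, hsub⟩ := hvcov y hy
        simp only [mem_iUnion]
        exact ⟨b, (hmem b).2 hb, hsub (mem_closedBall_self hrpos.le)⟩
      refine (measure_mono hcov).trans ((measure_biUnion_finset_le _ _).trans ?_)
      have : ∀ x ∈ u, volume (closedBall x (5 * r)) = ENNReal.ofReal ((2 * (5 * r)) ^ d) := by
        intro x _
        rw [Real.volume_pi_closedBall _ (by positivity), Fintype.card_fin]
      rw [Finset.sum_congr rfl this, Finset.sum_const, nsmul_eq_mul,
        ENNReal.ofReal_mul (by positivity), ENNReal.ofReal_natCast]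
    have hball : volume (closedBall x0 ρ) = ENNReal.ofReal ((2 * ρ) ^ d) := by
      rw [Real.volume_pi_closedBall _ hρ.le, Fintype.card_fin]
    rw [hball] at hGvol
    have h1 := hGvol.trans (mul_le_mul_right hGle 2)
    have h2 : (2 : ENNReal) = ENNReal.ofReal 2 := by simp
    rw [h2, ← ENNReal.ofReal_mul (by norm_num),
      ENNReal.ofReal_le_ofReal_iff (by positivity)] at h1
    rw [div_le_iff₀ (by positivity)]
    have e2 : (2 * (5 * r)) ^ d = (2 * s) ^ d * (5 * C3) ^ d := by
      rw [← mul_pow, hr]; congr 1; ring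
    rw [e2] at h1
    nlinarith
  · -- upper bound for the cardinality
    have h1 : ∑ x ∈ u, volume (closedBall x r) ≤ volume (closedBall x0 (2 * ρ)) := by
      rw [← measure_biUnion_finset hudisj (fun x _ => measurableSet_closedBall)]
      apply measure_mono
      simp only [iUnion_subset_iff]
      intro x hx
      exact hsubball x ((hmem x).1 hx)
    have : ∀ x ∈ u, volume (closedBall x r) = ENNReal.ofReal ((2 * r) ^ d) := by
      intro x _
      rw [Real.volume_pi_closedBall _ hrpos.le, Fintype.card_fin]
    rw [Finset.sum_congr rfl this, Finset.sum_const, nsmul_eq_mul, ← ENNReal.ofReal_natCast,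
      ← ENNReal.ofReal_mul (by positivity), Real.volume_pi_closedBall _ (by positivity),
      Fintype.card_fin, ENNReal.ofReal_le_ofReal_iff (by positivity)] at h1
    have h2 : (2 * s) ^ d ≤ (2 * r) ^ d := by
      apply pow_le_pow_left₀ (by positivity)
      rw [hr]; nlinarith
    calc (u.card : ℝ) * (2 * s) ^ d ≤ u.card * (2 * r) ^ d := by gcongr
      _ ≤ (2 * (2 * ρ)) ^ d := h1
      _ = 2 ^ d * (2 * ρ) ^ d := by rw [mul_pow]

end Pool.Agent.Y762.GA
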