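import Pool.Agent.Y762.GA.Stm

/-!
A positive proportion of a ball lies in the limsup set (adaptation of the starting file
`H639R3/G/Div.lean`).
-/

open MeasureTheory Set Metric
open Pool.Agent.H639R3.G

namespace Pool.Agent.Y762.GA

variable {d m : ℕ}

section level

variable {A : Matrix (Fin (d + 1)) (Fin m) ℝ} {x0 : Fin d → ℝ} {ρ κ C3 : ℝ} {r0 t : ℕ}

/-- the slab piece attached to a point -/
noncomputable def Lev.piece (L : Lev A x0 ρ κ C3 r0 t) (φ : ℝ) (x : Fin d → ℝ) :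
    Set (Fin d → ℝ) := slabBox (L.a x) (L.b x) (L.idx x) x (sc d m t) φ

/-- the union of the slab pieces -/
noncomputable def Lev.E (L : Lev A x0 ρ κ C3 r0 t) (φ : ℝ) : Set (Fin d → ℝ) :=
  ⋃ x ∈ L.u, L.piece φ x

theorem Lev.norm_b_pos (L : Lev A x0 ρ κ C3 r0 t) (hκ : 0 < κ) {x : Fin d → ℝ} (hx : x ∈ L.u) :
    0 < ‖L.b x‖ := lt_trans (by positivity) (L.hblo x hx)

theorem Lev.piece_subset (hd : 0 < d) (L : Lev A x0 ρ κ C3 r0 t) (hκ : 0 < κ)
    (hC3 : C3 = d + 2 / κ) {φ : ℝ} (hφ0 : 0 ≤ φ) (hφ : φ ≤ 1 / 2 ^ (t * (d + m)))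
    {x : Fin d → ℝ} (hx : x ∈ L.u) : L.piece φ x ⊆ closedBall x (C3 * sc d m t) := by
  have hb := L.norm_b_pos hκ hx
  refine (slabBox_subset_closedBall hd (L.hidx x hx) hb (sc_pos d m t).le hφ0
    (L.hval x hx)).trans ?_
  apply closedBall_subset_closedBall
  have h1 : (φ + 1 / 2 ^ (t * (d + m))) / ‖L.b x‖ ≤ 2 / κ * sc d m t := by
    have h2 := (L.hblo x hx).le
    calc (φ + 1 / 2 ^ (t * (d + m))) / ‖L.b x‖
        ≤ (1 / 2 ^ (t * (d + m)) + 1 / 2 ^ (t * (d + m))) / (κ * 2 ^ t) := by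
          gcongr
      _ = 2 / κ * sc d m t := by
          unfold sc
          have : (2 : ℝ) ^ (t * (d + m + 1)) = 2 ^ (t * (d + m)) * 2 ^ t := by
            rw [← pow_add]; congr 1
          rw [this]; field_simp; ring
  have e : C3 * sc d m t = d * sc d m t + 2 / κ * sc d m t := by rw [hC3]; ring
  linarith

theorem Lev.measurableSet_piece (L : Lev A x0 ρ κ C3 r0 t) (φ : ℝ) (x : Fin d → ℝ) :
    MeasurableSet (L.piece φ x) := measurableSet_slabBox _ _ _ _ _ _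

theorem Lev.measurableSet_E (L : Lev A x0 ρ κ C3 r0 t) (φ : ℝ) : MeasurableSet (L.E φ) :=
  Finset.measurableSet_biUnion _ fun x _ => L.measurableSet_piece φ x

theorem real_slabBox' {a : ℝ} {b : Fin d → ℝ} {i : Fin d} {c : Fin d → ℝ} {r δ : ℝ}
    (hbi : |b i| = ‖b‖) (hb : 0 < ‖b‖) (hr : 0 ≤ r) (hδ : 0 ≤ δ) :
    volume.real (slabBox a b i c r δ) = (2 * r) ^ (d - 1) * (2 * δ) / ‖b‖ := by
  have hne : b i ≠ 0 := by
    intro h; rw [h, abs_zero] at hbi; linarith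
  rw [Measure.real, volume_slabBox hne hr, hbi, ENNReal.toReal_ofReal (by positivity)]

theorem volume_slabBox_ne_top' {a : ℝ} {b : Fin d → ℝ} {i : Fin d} {c : Fin d → ℝ} {r δ : ℝ}
    (hbi : |b i| = ‖b‖) (hb : 0 < ‖b‖) (hr : 0 ≤ r) :
    volume (slabBox a b i c r δ) ≠ ⊤ := by
  have hne : b i ≠ 0 := by
    intro h; rw [h, abs_zero] at hbi; linarith
  rw [volume_slabBox hne hr]; exact ENNReal.ofReal_ne_top

/-- normalisation -/
theorem sc_identity' (hd : 0 < d) (m t : ℕ) (φ : ℝ) :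
    (2 * sc d m t) ^ (d - 1) * (2 * φ) / 2 ^ t
      = (2 * sc d m t) ^ d * (2 ^ (t * (d + m)) * φ) := by
  have h1 : (2 * sc d m t) ^ d = (2 * sc d m t) ^ (d - 1) * (2 * sc d m t) := by
    rw [← pow_succ]; congr 1; omega
  have h2 : 1 / (2 : ℝ) ^ t = sc d m t * 2 ^ (t * (d + m)) := by
    unfold sc
    have : (2 : ℝ) ^ (t * (d + m + 1)) = 2 ^ (t * (d + m)) * 2 ^ t := by
      rw [← pow_add]; congr 1
    rw [this]; field_simp
  rw [h1, div_eq_mul_one_div, h2]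
  ring

theorem Lev.piece_ge (hd : 0 < d) (L : Lev A x0 ρ κ C3 r0 t) (hκ : 0 < κ)
    {φ : ℝ} (hφ0 : 0 ≤ φ) {x : Fin d → ℝ} (hx : x ∈ L.u) :
    (2 * sc d m t) ^ d * (2 ^ (t * (d + m)) * φ) / (CA A * 2 ^ r0)
      ≤ volume.real (L.piece φ x) := by
  have hb := L.norm_b_pos hκ hx
  have hs := sc_pos d m t
  have hCA := CA_pos A
  rw [Lev.piece, real_slabBox' (L.hidx x hx) hb (sc_pos d m t).le hφ0, ← sc_identity' hd,
    div_div]
  have := L.hbhi x hx
  have e : CA A * 2 ^ (t + r0) = 2 ^ t * (CA A * 2 ^ r0) := by rw [pow_add]; ring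
  rw [e] at this
  gcongr

theorem Lev.piece_le (hd : 0 < d) (L : Lev A x0 ρ κ C3 r0 t) (hκ : 0 < κ)
    {φ : ℝ} (hφ0 : 0 ≤ φ) {x : Fin d → ℝ} (hx : x ∈ L.u) :
    volume.real (L.piece φ x) ≤ (2 * sc d m t) ^ d * (2 ^ (t * (d + m)) * φ) / κ := by
  have hb := L.norm_b_pos hκ hx
  have hs := sc_pos d m t
  rw [Lev.piece, real_slabBox' (L.hidx x hx) hb (sc_pos d m t).le hφ0, ← sc_identity' hd,
    div_div]
  have := (L.hblo x hx).le
  rw [mul_comm κ] at this
  gcongr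

theorem Lev.piece_ne_top (L : Lev A x0 ρ κ C3 r0 t) (hκ : 0 < κ)
    {φ : ℝ} {x : Fin d → ℝ} (hx : x ∈ L.u) : volume (L.piece φ x) ≠ ⊤ :=
  volume_slabBox_ne_top' (L.hidx x hx) (L.norm_b_pos hκ hx) (sc_pos d m t).le

theorem Lev.E_subset (hd : 0 < d) (L : Lev A x0 ρ κ C3 r0 t) (hκ : 0 < κ)
    (hC3 : C3 = d + 2 / κ) {φ : ℝ} (hφ0 : 0 ≤ φ) (hφ : φ ≤ 1 / 2 ^ (t * (d + m))) :
    L.E φ ⊆ closedBall x0 (2 * ρ) := by
  simp only [Lev.E, iUnion_subset_iff]
  intro x hx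
  refine (L.piece_subset hd hκ hC3 hφ0 hφ hx).trans ?_
  apply closedBall_subset_closedBall'
  have h1 := mem_closedBall.1 (L.hu x hx)
  have h2 := L.hr
  linarith

theorem Lev.E_eq_sum (hd : 0 < d) (L : Lev A x0 ρ κ C3 r0 t) (hκ : 0 < κ)
    (hC3 : C3 = d + 2 / κ) {φ : ℝ} (hφ0 : 0 ≤ φ) (hφ : φ ≤ 1 / 2 ^ (t * (d + m))) :
    volume.real (L.E φ) = ∑ x ∈ L.u, volume.real (L.piece φ x) := by
  apply measureReal_biUnion_finset
  · intro x hx y hy hxy
    exact (L.hdisj hx hy hxy).mono (L.piece_subset hd hκ hC3 hφ0 hφ hx)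
      (L.piece_subset hd hκ hC3 hφ0 hφ hy)
  · intro x _; exact L.measurableSet_piece φ x
  · intro x hx; exact L.piece_ne_top hκ hx

theorem Lev.E_ge (hd : 0 < d) (L : Lev A x0 ρ κ C3 r0 t) (hκ : 0 < κ)
    (hC3 : C3 = d + 2 / κ) {φ : ℝ} (hφ0 : 0 ≤ φ) (hφ : φ ≤ 1 / 2 ^ (t * (d + m))) :
    1 / (2 * (5 * C3) ^ d * (CA A * 2 ^ r0)) * (2 * ρ) ^ d * (2 ^ (t * (d + m)) * φ)
      ≤ volume.real (L.E φ) := by
  rw [L.E_eq_sum hd hκ hC3 hφ0 hφ]
  have hCA := CA_pos A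
  have h1 : ∑ _x ∈ L.u, (2 * sc d m t) ^ d * (2 ^ (t * (d + m)) * φ) / (CA A * 2 ^ r0)
      ≤ ∑ x ∈ L.u, volume.real (L.piece φ x) :=
    Finset.sum_le_sum fun x hx => L.piece_ge hd hκ hφ0 hx
  refine le_trans ?_ h1
  rw [Finset.sum_const, nsmul_eq_mul]
  have h2 := L.hlow
  calc 1 / (2 * (5 * C3) ^ d * (CA A * 2 ^ r0)) * (2 * ρ) ^ d * (2 ^ (t * (d + m)) * φ)
      = ((2 * ρ) ^ d / (2 * (5 * C3) ^ d)) * ((2 ^ (t * (d + m)) * φ) / (CA A * 2 ^ r0)) := by
        rw [div_mul_div_comm, one_div_mul_eq_div, div_mul_eq_mul_div]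
    _ ≤ (L.u.card * (2 * sc d m t) ^ d) * ((2 ^ (t * (d + m)) * φ) / (CA A * 2 ^ r0)) := by gcongr
    _ = _ := by ring

theorem Lev.E_le (hd : 0 < d) (L : Lev A x0 ρ κ C3 r0 t) (hκ : 0 < κ)
    (hC3 : C3 = d + 2 / κ) {φ : ℝ} (hφ0 : 0 ≤ φ) (hφ : φ ≤ 1 / 2 ^ (t * (d + m))) :
    volume.real (L.E φ) ≤ 2 ^ d / κ * (2 * ρ) ^ d * (2 ^ (t * (d + m)) * φ) := by
  rw [L.E_eq_sum hd hκ hC3 hφ0 hφ]
  have h1 : ∑ x ∈ L.u, volume.real (L.piece φ x)
      ≤ ∑ _x ∈ L.u, (2 * sc d m t) ^ d * (2 ^ (t * (d + m)) * φ) / κ :=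
    Finset.sum_le_sum fun x hx => L.piece_le hd hκ hφ0 hx
  refine h1.trans ?_
  rw [Finset.sum_const, nsmul_eq_mul]
  have h2 := L.hup
  calc (L.u.card : ℝ) * ((2 * sc d m t) ^ d * (2 ^ (t * (d + m)) * φ) / κ)
      = (L.u.card * (2 * sc d m t) ^ d) * ((2 ^ (t * (d + m)) * φ) / κ) := by ring
    _ ≤ (2 ^ d * (2 * ρ) ^ d) * ((2 ^ (t * (d + m)) * φ) / κ) := by gcongr
    _ = _ := by ring

open Classical in
/-- the number of points of a finer level whose pieces meet a given piece -/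
theorem Lev.card_meet_le (hd : 0 < d) {j k : ℕ} (hjk : j < k) (L : Lev A x0 ρ κ C3 r0 j)
    (M : Lev A x0 ρ κ C3 r0 k) (hκ : 0 < κ) (hC3 : C3 = d + 2 / κ) {φ φ' : ℝ}
    (hφ0 : 0 ≤ φ) (hφ0' : 0 ≤ φ') (hφ' : φ' ≤ 1 / 2 ^ (k * (d + m)))
    {x : Fin d → ℝ} (hx : x ∈ L.u) :
    (((M.u.filter fun y => (L.piece φ x ∩ M.piece φ' y).Nonempty).card : ℝ))
      * (2 * sc d m k) ^ d ≤ (2 * sc d m j) ^ d * (((1 + 2 * C3) ^ (d - 1)
        * (1 / κ + 2 * d * C3)) * (2 ^ (j * (d + m)) * φ + sc d m k / sc d m j)) := by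
  classical
  have hb := L.norm_b_pos hκ hx
  have hd1 : (1 : ℝ) ≤ d := by exact_mod_cast hd
  have hC31 : 1 ≤ C3 := by
    have : 0 < 2 / κ := by positivity
    rw [hC3]; linarith
  have hC3pos : 0 < C3 := by linarith
  set sj := sc d m j with hsj
  set sk := sc d m k with hsk
  have hsj0 : 0 < sj := sc_pos d m j
  have hsk0 : 0 < sk := sc_pos d m k
  have hskj : sk ≤ sj := by
    rw [hsj, hsk]; unfold sc
    apply one_div_le_one_div_of_le (by positivity)
    apply pow_le_pow_right₀ one_le_two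
    exact Nat.mul_le_mul_right _ hjk.le
  set r := C3 * sk with hr
  have hr0 : 0 < r := by positivity
  set Y := M.u.filter fun y => (L.piece φ x ∩ M.piece φ' y).Nonempty with hY
  set big := slabBox (L.a x) (L.b x) (L.idx x) x (sj + 2 * r) (φ + d * ‖L.b x‖ * (2 * r)) with hbig
  have hsub : (⋃ y ∈ Y, closedBall y r) ⊆ big := by
    simp only [iUnion_subset_iff]
    intro y hy y' hy'
    obtain ⟨hyM, w, hw1, hw2⟩ := Finset.mem_filter.1 hy
    have h1 := M.piece_subset hd hκ hC3 hφ0' hφ' hyM hw2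
    apply slabBox_thicken hw1
    rw [mem_closedBall] at h1 hy'
    calc dist y' w ≤ dist y' y + dist y w := dist_triangle _ _ _
      _ ≤ 2 * r := by rw [dist_comm y w]; linarith
  have hdisj : (Y : Set (Fin d → ℝ)).PairwiseDisjoint fun y => closedBall y r := by
    intro y hy y' hy' hne
    exact M.hdisj (Finset.mem_filter.1 hy).1 (Finset.mem_filter.1 hy').1 hne
  have hvol : ∑ y ∈ Y, volume (closedBall y r) ≤ volume big := by
    rw [← measure_biUnion_finset hdisj (fun y _ => measurableSet_closedBall)]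
    exact measure_mono hsub
  have h1 : ∀ y ∈ Y, volume (closedBall y r) = ENNReal.ofReal ((2 * r) ^ d) := by
    intro y _
    rw [Real.volume_pi_closedBall _ hr0.le, Fintype.card_fin]
  have hne : L.b x (L.idx x) ≠ 0 := by
    intro h
    have := L.hidx x hx
    rw [h, abs_zero] at this; linarith
  rw [Finset.sum_congr rfl h1, Finset.sum_const, nsmul_eq_mul, ← ENNReal.ofReal_natCast,
    ← ENNReal.ofReal_mul (by positivity), hbig, volume_slabBox hne (by positivity),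
    L.hidx x hx, ENNReal.ofReal_le_ofReal_iff (by positivity)] at hvol
  have h2 : (2 * sk) ^ d ≤ (2 * r) ^ d := by
    apply pow_le_pow_left₀ (by positivity)
    rw [hr]; nlinarith
  have h3 : (2 * (sj + 2 * r)) ^ (d - 1) ≤ (2 * sj) ^ (d - 1) * (1 + 2 * C3) ^ (d - 1) := by
    rw [← mul_pow]
    apply pow_le_pow_left₀ (by positivity)
    rw [hr]; nlinarith
  have h4 : 2 * (φ + d * ‖L.b x‖ * (2 * r)) / ‖L.b x‖
      ≤ 2 * (φ / (κ * 2 ^ j) + 2 * d * C3 * sk) := by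
    have h5 : φ / ‖L.b x‖ ≤ φ / (κ * 2 ^ j) := by
      have := (L.hblo x hx).le
      gcongr
    have h6 : 2 * (φ + d * ‖L.b x‖ * (2 * r)) / ‖L.b x‖
      = 2 * (φ / ‖L.b x‖ + 2 * d * C3 * sk) := by rw [hr]; field_simp
    rw [h6]; linarith
  have h5 : 2 * sj * (2 ^ (j * (d + m)) * φ) = 2 * (φ / 2 ^ j) := by
    have := sc_identity' hd m j φ
    have e1 : (2 * sj) ^ d = (2 * sj) ^ (d - 1) * (2 * sj) := by
      rw [← pow_succ]; congr 1; omega
    rw [← hsj, e1] at this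
    have e2 : (2 * sj) ^ (d - 1) ≠ 0 := by positivity
    have e3 : (2 * sj) ^ (d - 1) * (2 * (φ / 2 ^ j))
      = (2 * sj) ^ (d - 1) * (2 * sj * (2 ^ (j * (d + m)) * φ)) := by
      calc (2 * sj) ^ (d - 1) * (2 * (φ / 2 ^ j)) = (2 * sj) ^ (d - 1) * (2 * φ) / 2 ^ j := by ring
        _ = _ := by rw [this]; ring
    exact (mul_left_cancel₀ e2 e3).symm
  calc (Y.card : ℝ) * (2 * sk) ^ d ≤ Y.card * (2 * r) ^ d := by gcongr
    _ ≤ (2 * (sj + 2 * r)) ^ (d - 1) * (2 * (φ + d * ‖L.b x‖ * (2 * r))) / ‖L.b x‖ := hvol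
    _ = (2 * (sj + 2 * r)) ^ (d - 1) * (2 * (φ + d * ‖L.b x‖ * (2 * r)) / ‖L.b x‖) := by ring
    _ ≤ ((2 * sj) ^ (d - 1) * (1 + 2 * C3) ^ (d - 1))
        * (2 * (φ / (κ * 2 ^ j) + 2 * d * C3 * sk)) := by gcongr
    _ ≤ ((2 * sj) ^ (d - 1) * (1 + 2 * C3) ^ (d - 1))
        * ((1 / κ + 2 * d * C3) * (2 * (φ / 2 ^ j) + 2 * sk)) := by
        have e1 : φ / (κ * 2 ^ j) = 1 / κ * (φ / 2 ^ j) := by field_simp
        have e2 : 0 ≤ 2 * d * C3 * (φ / 2 ^ j) := by positivity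
        have e3 : 0 ≤ 1 / κ * sk := by positivity
        apply mul_le_mul_of_nonneg_left _ (by positivity)
        rw [e1]
        nlinarith
    _ = (2 * sj) ^ d * (((1 + 2 * C3) ^ (d - 1)
        * (1 / κ + 2 * d * C3)) * (2 ^ (j * (d + m)) * φ + sk / sj)) := by
        have e1 : (2 * sj) ^ d = (2 * sj) ^ (d - 1) * (2 * sj) := by
          rw [← pow_succ]; congr 1; omega
        rw [e1, ← h5]
        have e2 : 2 * sk = 2 * sj * (sk / sj) := by field_simp
        rw [e2]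
        ring

/-- the overlap estimate -/
theorem Lev.overlap (hd : 0 < d) {j k : ℕ} (hjk : j < k) (L : Lev A x0 ρ κ C3 r0 j)
    (M : Lev A x0 ρ κ C3 r0 k) (hκ : 0 < κ) (hC3 : C3 = d + 2 / κ) {φ φ' : ℝ}
    (hφ0 : 0 ≤ φ) (hφ0' : 0 ≤ φ') (hφφ' : φ' ≤ φ)
    (hφ' : φ' ≤ 1 / 2 ^ (k * (d + m))) (hρ : 0 < ρ) :
    volume.real (L.E φ ∩ M.E φ') ≤ (2 ^ d * ((1 + 2 * C3) ^ (d - 1)
      * (1 / κ + 2 * d * C3)) / κ) * (2 * ρ) ^ d * ((2 ^ (j * (d + m)) * φ)
        * (2 ^ (k * (d + m)) * φ') + (1 / 2) ^ (k - j) * (2 ^ (j * (d + m)) * φ)) := by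
  classical
  have hC31 : 1 ≤ C3 := by
    have : 0 < 2 / κ := by positivity
    have hd1 : (1 : ℝ) ≤ d := by exact_mod_cast hd
    rw [hC3]; linarith
  have hC3pos : 0 < C3 := by linarith
  set C4 := (1 + 2 * C3) ^ (d - 1) * (1 / κ + 2 * d * C3) with hC4
  have hC4pos : 0 ≤ C4 := by positivity
  have hsj0 : 0 < sc d m j := sc_pos d m j
  have hsk0 : 0 < sc d m k := sc_pos d m k
  set wj := 2 ^ (j * (d + m)) * φ with hwj
  set wk := 2 ^ (k * (d + m)) * φ' with hwk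
  have hwj0 : 0 ≤ wj := by positivity
  have hwk0 : 0 ≤ wk := by positivity
  have hcov : L.E φ ∩ M.E φ' ⊆ ⋃ x ∈ L.u, ⋃ y ∈ M.u.filter
      (fun y => (L.piece φ x ∩ M.piece φ' y).Nonempty), M.piece φ' y := by
    rintro w ⟨hw1, hw2⟩
    simp only [Lev.E, mem_iUnion, exists_prop] at hw1 hw2 ⊢
    obtain ⟨x, hx, hwx⟩ := hw1
    obtain ⟨y, hy, hwy⟩ := hw2
    exact ⟨x, hx, y, Finset.mem_filter.2 ⟨hy, w, hwx, hwy⟩, hwy⟩
  have hfin : volume (⋃ x ∈ L.u, ⋃ y ∈ M.u.filter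
      (fun y => (L.piece φ x ∩ M.piece φ' y).Nonempty), M.piece φ' y) ≠ ⊤ := by
    apply ne_top_of_le_ne_top (b := volume (closedBall x0 (2 * ρ)))
    · rw [Real.volume_pi_closedBall _ (by positivity)]; exact ENNReal.ofReal_ne_top
    · apply measure_mono
      simp only [iUnion_subset_iff]
      intro x _ y hy
      refine Subset.trans ?_ (M.E_subset hd hκ hC3 hφ0' hφ')
      exact subset_biUnion_of_mem (u := fun y => M.piece φ' y) (Finset.mem_filter.1 hy).1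
  refine (measureReal_mono hcov hfin).trans ?_
  refine (measureReal_biUnion_finset_le _ _).trans ?_
  have h1 : ∀ x ∈ L.u, volume.real (⋃ y ∈ M.u.filter
      (fun y => (L.piece φ x ∩ M.piece φ' y).Nonempty), M.piece φ' y)
      ≤ (2 * sc d m j) ^ d * (C4 * (wj + sc d m k / sc d m j)) * (wk / κ) := by
    intro x hx
    refine (measureReal_biUnion_finset_le _ _).trans ?_
    have h2 : ∀ y ∈ M.u.filter (fun y => (L.piece φ x ∩ M.piece φ' y).Nonempty),
        volume.real (M.piece φ' y) ≤ (2 * sc d m k) ^ d * wk / κ := by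
      intro y hy
      exact M.piece_le hd hκ hφ0' (Finset.mem_filter.1 hy).1
    refine (Finset.sum_le_sum h2).trans ?_
    rw [Finset.sum_const, nsmul_eq_mul]
    have h3 := Lev.card_meet_le hd hjk L M hκ hC3 hφ0 hφ0' hφ' hx
    rw [← hC4, ← hwj] at h3
    calc _ = (((M.u.filter fun y => (L.piece φ x ∩ M.piece φ' y).Nonempty).card : ℝ)
          * (2 * sc d m k) ^ d) * (wk / κ) := by ring
      _ ≤ _ := by gcongr
  refine (Finset.sum_le_sum h1).trans ?_
  rw [Finset.sum_const, nsmul_eq_mul]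
  have h4 := L.hup
  have h5 : sc d m k / sc d m j * wk ≤ (1 / 2) ^ (k - j) * wj := by
    have e1 : sc d m k / sc d m j * wk
        = (1 / 2) ^ (k - j) * (2 ^ (j * (d + m)) * φ') := by
      obtain ⟨l, rfl⟩ := Nat.exists_eq_add_of_lt hjk
      have e2 : j + l + 1 - j = l + 1 := by omega
      rw [e2, hwk]
      unfold sc
      have e3 : (2 : ℝ) ^ ((j + l + 1) * (d + m + 1))
          = 2 ^ (j * (d + m + 1)) * 2 ^ ((l + 1) * (d + m)) * 2 ^ (l + 1) := by
        rw [← pow_add, ← pow_add]; congr 1; ring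
      have e4 : (2 : ℝ) ^ ((j + l + 1) * (d + m)) = 2 ^ (j * (d + m)) * 2 ^ ((l + 1) * (d + m)) := by
        rw [← pow_add]; congr 1; ring
      rw [e3, e4, one_div_pow]
      field_simp
    rw [e1, hwj]
    gcongr
  calc (L.u.card : ℝ) * ((2 * sc d m j) ^ d * (C4 * (wj + sc d m k / sc d m j)) * (wk / κ))
      = (L.u.card * (2 * sc d m j) ^ d) * (C4 / κ * (wj * wk + sc d m k / sc d m j * wk)) := by
        ring
    _ ≤ (2 ^ d * (2 * ρ) ^ d) * (C4 / κ * (wj * wk + (1 / 2) ^ (k - j) * wj)) := by gcongr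
    _ = 2 ^ d * C4 / κ * (2 * ρ) ^ d * (wj * wk + (1 / 2) ^ (k - j) * wj) := by ring

end level

theorem t_PROP : S_PROP := by
  classical
  intro d m hd hm A κ r0 hκ
  set C3 : ℝ := d + 2 / κ with hC3
  have hd1 : (1 : ℝ) ≤ d := by exact_mod_cast hd
  have hC31 : 1 ≤ C3 := by
    have : 0 < 2 / κ := by positivity
    rw [hC3]; linarith
  have hC3pos : 0 < C3 := by linarith
  have hCA := CA_pos A
  set C4 := (1 + 2 * C3) ^ (d - 1) * (1 / κ + 2 * d * C3) with hC4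
  have hC41 : 1 ≤ C4 := by
    have h1 : 1 ≤ (1 + 2 * C3) ^ (d - 1) := one_le_pow₀ (by linarith)
    have h2 : 1 ≤ 1 / κ + 2 * d * C3 := by
      have : 0 < 1 / κ := by positivity
      nlinarith
    calc (1 : ℝ) = 1 * 1 := (one_mul 1).symm
      _ ≤ C4 := by rw [hC4]; gcongr
  set cc := 1 / (2 * (5 * C3) ^ d * (CA A * 2 ^ r0)) with hcc
  set CC := 2 ^ d * C4 / κ with hCC
  have hccpos : 0 < cc := by positivity
  have hCCpos : 0 < CC := by positivity
  refine ⟨cc ^ 2 / (5 * CC), by positivity, ?_⟩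
  intro ψ hψ x0 ρ hρ T hT hTdiv
  set φ : ℕ → ℝ := fun t => min (ψ (2 ^ (t + r0))) (1 / 2 ^ (t * (d + m))) with hφdef
  have hφpos : ∀ t, 0 < φ t := fun t => lt_min (hψ.1 _ Nat.one_le_two_pow) (by positivity)
  have hφle : ∀ t, φ t ≤ 1 / 2 ^ (t * (d + m)) := fun t => min_le_right _ _
  have hφψ : ∀ t, φ t ≤ ψ (2 ^ (t + r0)) := fun t => min_le_left _ _
  have hφanti : ∀ s t, s ≤ t → φ t ≤ φ s := by
    intro s t hst
    apply min_le_min
    · exact hψ.2 _ _ Nat.one_le_two_pow (Nat.pow_le_pow_right (by norm_num) (by omega))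
    · apply one_div_le_one_div_of_le (by positivity)
      apply pow_le_pow_right₀ one_le_two
      exact Nat.mul_le_mul_right _ (by omega)
  set w0 : ℕ → ℝ := fun t => 2 ^ (t * (d + m)) * φ t with hw0def
  have hw0nn : ∀ t, 0 ≤ w0 t := fun t => by
    have := hφpos t
    simp only [hw0def]; positivity
  have hw0 : ∀ t, w0 t = min ((2 : ℝ) ^ (t * (d + m)) * ψ (2 ^ (t + r0))) 1 := by
    intro t
    simp only [hw0def, hφdef]
    rw [mul_min_of_nonneg _ _ (by positivity)]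
    congr 1
    field_simp
  set w : ℕ → ℝ := fun t => T.indicator w0 t with hwdef
  have hwin : ∀ t, t ∈ T → w t = w0 t := fun t h => indicator_of_mem h _
  have hwout : ∀ t, t ∉ T → w t = 0 := fun t h => indicator_of_notMem h _
  have hwnn : ∀ t, 0 ≤ w t := fun t => by
    by_cases h : t ∈ T
    · rw [hwin t h]; exact hw0nn t
    · rw [hwout t h]
  have hwdiv : ¬ Summable w := by
    intro hs
    apply hTdiv
    refine hs.congr fun t => ?_
    by_cases h : t ∈ T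
    · rw [hwin t h, indicator_of_mem h, hw0]
    · rw [hwout t h, indicator_of_notMem h]
  set E : ℕ → Set (Fin d → ℝ) := fun t => if h : t ∈ T then (hT t h).some.E (φ t) else ∅ with hE
  have hEin : ∀ t (h : t ∈ T), E t = (hT t h).some.E (φ t) := fun t h => dif_pos h
  have hEout : ∀ t, t ∉ T → E t = ∅ := fun t h => dif_neg h
  have hEsub : ∀ t, E t ⊆ closedBall x0 (2 * ρ) := fun t => by
    by_cases h : t ∈ T
    · rw [hEin t h]
      exact (hT t h).some.E_subset hd hκ hC3 (hφpos t).le (hφle t)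
    · rw [hEout t h]; exact empty_subset _
  have hEm : ∀ t, MeasurableSet (E t) := fun t => by
    by_cases h : t ∈ T
    · rw [hEin t h]; exact (hT t h).some.measurableSet_E _
    · rw [hEout t h]; exact MeasurableSet.empty
  have hfinball : volume (closedBall x0 (2 * ρ)) ≠ ⊤ := by
    rw [Real.volume_pi_closedBall _ (by positivity)]; exact ENNReal.ofReal_ne_top
  have hmain := measure_frequently_ge (volume : Measure (Fin d → ℝ)) E hEm
    (closedBall x0 (2 * ρ)) hfinball hEsub w hwnn hwdiv cc CC ((2 * ρ) ^ d) hccpos hCCpos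
    (by positivity)
    (fun t => by
      by_cases h : t ∈ T
      · rw [hwin t h, hEin t h]
        exact (hT t h).some.E_ge hd hκ hC3 (hφpos t).le (hφle t)
      · rw [hwout t h, mul_zero]; exact measureReal_nonneg)
    (fun t => by
      by_cases h : t ∈ T
      · rw [hwin t h, hEin t h]
        refine ((hT t h).some.E_le hd hκ hC3 (hφpos t).le (hφle t)).trans ?_
        have h1 : 2 ^ d / κ ≤ CC := by
          rw [hCC]
          apply div_le_div_of_nonneg_right _ hκ.le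
          nlinarith [show (0 : ℝ) < 2 ^ d by positivity]
        have := hw0nn t
        simp only [hw0def] at this ⊢
        gcongr
      · rw [hwout t h, hEout t h, mul_zero, measureReal_empty])
    (fun s t hst => by
      by_cases hs : s ∈ T
      · by_cases ht : t ∈ T
        · rw [hwin t ht, hwin s hs, hEin t ht, hEin s hs]
          exact Lev.overlap hd hst (hT s hs).some (hT t ht).some hκ hC3
            (hφpos s).le (hφpos t).le (hφanti s t hst.le) (hφle t) hρ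
        · rw [hEout t ht, inter_empty, measureReal_empty]
          have h1 := hwnn s
          have h2 := hwnn t
          positivity
      · rw [hEout s hs, empty_inter, measureReal_empty]
        have h1 := hwnn s
        have h2 := hwnn t
        positivity)
  refine ⟨{x | ∃ᶠ t in Filter.atTop, x ∈ E t}, ?_, ?_, ?_, hmain⟩
  · have : {x | ∃ᶠ t in Filter.atTop, x ∈ E t} = ⋂ N, ⋃ t, ⋃ (_ : N ≤ t), E t := by
      ext x
      simp only [mem_ofPred_eq, Filter.frequently_atTop, mem_iInter, mem_iUnion, exists_prop]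
    rw [this]
    exact MeasurableSet.iInter fun N => MeasurableSet.iUnion fun t =>
      MeasurableSet.iUnion fun _ => hEm t
  · intro x hx
    obtain ⟨t, ht⟩ := Filter.Frequently.exists hx
    exact hEsub t ht
  · intro x hx
    show {q : Fin (d + m) → ℤ | q ≠ 0 ∧
      distInt (∑ i, (q i : ℝ) * point A x i) < ψ (supNorm q)}.Infinite
    intro hfin
    -- slopes are bounded on a finite set
    obtain ⟨M, hM⟩ : ∃ M : ℝ, ∀ q ∈ {q : Fin (d + m) → ℤ | q ≠ 0 ∧
        distInt (∑ i, (q i : ℝ) * point A x i) < ψ (supNorm q)},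
        ‖bvec A (fun i => q (Fin.castAdd m i)) (fun j => q (Fin.natAdd d j))‖ ≤ M := by
      obtain ⟨M, hM⟩ := (hfin.image (fun q : Fin (d + m) → ℤ =>
        ‖bvec A (fun i => q (Fin.castAdd m i)) (fun j => q (Fin.natAdd d j))‖)).bddAbove
      exact ⟨M, fun q hq => hM (mem_image_of_mem _ hq)⟩
    have hev : ∀ᶠ t : ℕ in Filter.atTop, M / κ ≤ (2 : ℝ) ^ t :=
      (tendsto_pow_atTop_atTop_of_one_lt (one_lt_two)).eventually_ge_atTop _
    obtain ⟨N, hN⟩ := Filter.eventually_atTop.1 hev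
    obtain ⟨t, htN, ht⟩ := (Filter.frequently_atTop.1 hx) N
    have htT : t ∈ T := by
      by_contra hcon
      rw [hEout t hcon] at ht
      exact ht
    rw [hEin t htT] at ht
    simp only [Lev.E, mem_iUnion, exists_prop] at ht
    obtain ⟨y, hy, hxy⟩ := ht
    obtain ⟨z, p, hz, hzb, ha, hb⟩ := (hT t htT).some.hab y hy
    have h1 : |aff ((hT t htT).some.a y) ((hT t htT).some.b y) x| < φ t := hxy.2
    have h2 : κ * 2 ^ t < ‖(hT t htT).some.b y‖ := (hT t htT).some.hblo y hy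
    have hmem : z ∈ {q : Fin (d + m) → ℤ | q ≠ 0 ∧
        distInt (∑ i, (q i : ℝ) * point A x i) < ψ (supNorm q)} := by
      refine ⟨hz, ?_⟩
      rw [distInt_lt_iff]
      refine ⟨p, ?_⟩
      rw [sum_point]
      rw [ha, hb] at h1
      have e : aff (p + acoef A (fun j => z (Fin.natAdd d j)))
        (bvec A (fun i => z (Fin.castAdd m i)) (fun j => z (Fin.natAdd d j))) x
        = p + aff (acoef A (fun j => z (Fin.natAdd d j)))
        (bvec A (fun i => z (Fin.castAdd m i)) (fun j => z (Fin.natAdd d j))) x := by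
        unfold aff; ring
      rw [e] at h1
      refine lt_of_lt_of_le h1 ((hφψ t).trans ?_)
      apply hψ.2 _ _ (supNorm_pos hz)
      exact supNorm_le_iff.2 (by simpa using hzb)
    have h3 := hM z hmem
    rw [← hb] at h3
    have h4 := hN t (by omega)
    rw [div_le_iff₀ hκ] at h4
    linarith

end Pool.Agent.Y762.GA
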