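import Pool.Agent.Y762.GA.Bad
import Pool.Agent.Y762.GA.Lev
import Pool.Agent.Y762.GA.Prop
import Pool.Agent.Y762.GA.Div
import Pool.Agent.Y371.GA.MaxFat
import Pool.Agent.Y371.GA.ConvUb
import Pool.Agent.Y409.GA.Nec
import Pool.Agent.Y182.GA.Pig

/-!
Affine subspaces of Groshev type: the criterion.
-/

open MeasureTheory Set Metric
open Pool.Agent.H639R3.G

namespace Pool.Agent.Y762.GA

variable {d m : ℕ}

/-- the criterion: `|q| ^ n * ‖A q‖` is bounded below, `n = d + m` -/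
def Low (A : Matrix (Fin (d + 1)) (Fin m) ℝ) : Prop :=
  ∃ c : ℝ, 0 < c ∧ ∀ q : Fin m → ℤ, q ≠ 0 →
    c ≤ (supNorm q : ℝ) ^ (d + m) * distIntVec (ev A q)

theorem Low.crit {A : Matrix (Fin (d + 1)) (Fin m) ℝ} (h : Low A) : ∃ c, Crit A c := by
  obtain ⟨c, hc, h⟩ := h
  refine ⟨min c 1, lt_min hc one_pos, min_le_right _ _, fun j q hq hj => ?_⟩
  have h1 := h q hq
  have h2 : (supNorm q : ℝ) ≤ 2 ^ j := by
    have : supNorm q ≤ 2 ^ j := supNorm_le_iff.2 (by simpa using hj)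
    exact_mod_cast this
  have h3 : (supNorm q : ℝ) ^ (d + m) ≤ 2 ^ (j * (d + m)) := by
    rw [pow_mul]
    exact pow_le_pow_left₀ (by positivity) h2 _
  have h4 := distIntVec_nonneg (ev A q)
  rw [div_le_iff₀ (by positivity)]
  calc min c 1 ≤ c := min_le_left _ _
    _ ≤ (supNorm q : ℝ) ^ (d + m) * distIntVec (ev A q) := h1
    _ ≤ 2 ^ (j * (d + m)) * distIntVec (ev A q) := by gcongr
    _ = _ := mul_comm _ _

theorem low_of_exponent_lt (hd : 0 < d) {A : Matrix (Fin (d + 1)) (Fin m) ℝ}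
    (hA : exponent A < ((d + m : ℕ) : EReal)) : Low A := by
  obtain ⟨β, c, h⟩ := exists_hyp hd A hA
  have hc := h.cpos
  have hβ : 0 < β := lt_trans (by positivity) h.lo
  refine ⟨c / 2 ^ (d + m), by positivity, fun q hq => ?_⟩
  set j := Nat.clog 2 (supNorm q) with hj
  have hpos := supNorm_pos hq
  have h1 : supNorm q ≤ 2 ^ j := Nat.le_pow_clog (by norm_num) _
  have h2 : (2 : ℝ) ^ j ≤ 2 * supNorm q := by
    rcases Nat.eq_or_lt_of_le (show 1 ≤ supNorm q from hpos) with h0 | h0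
    · have : j = 0 := by rw [hj, ← h0]; simp
      rw [this, pow_zero, ← h0]; norm_num
    · have h3 : 2 ^ (j - 1) < supNorm q := Nat.pow_pred_clog_lt_self (by norm_num) h0
      have h4 : 0 < j := by
        by_contra hcon
        have : j = 0 := by omega
        rw [this, pow_zero] at h1; omega
      have h5 : 2 ^ j = 2 * 2 ^ (j - 1) := by rw [← pow_succ']; congr 1; omega
      have h6 : 2 ^ j ≤ 2 * supNorm q := by rw [h5]; omega
      exact_mod_cast h6
  have hb := h.bd j q hq (by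
    intro i
    have := (supNorm_le_iff.1 h1) i
    simpa using this)
  have hβj : β ^ j ≤ (2 * supNorm q : ℝ) ^ (d + m) := by
    calc β ^ j ≤ (2 ^ (d + m)) ^ j := by
          have := h.hi.le
          gcongr
      _ = (2 ^ j) ^ (d + m) := by rw [← pow_mul, ← pow_mul, mul_comm]
      _ ≤ _ := by gcongr
  rw [div_le_iff₀ (by positivity)] at hb ⊢
  have h4 := distIntVec_nonneg (ev A q)
  calc c ≤ distIntVec (ev A q) * β ^ j := hb
    _ ≤ distIntVec (ev A q) * (2 * supNorm q : ℝ) ^ (d + m) := by gcongr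
    _ = _ := by rw [mul_pow]; ring

theorem not_low_of_lt_exponent {A : Matrix (Fin (d + 1)) (Fin m) ℝ}
    (hA : ((d + m : ℕ) : EReal) < exponent A) : ¬ Low A := by
  rintro ⟨c, hc, h⟩
  obtain ⟨a, ⟨ω, hω, rfl⟩, hlt⟩ := lt_sSup_iff.1 hA
  have hlt2 : (((d + m : ℕ) : ℝ) : EReal) < (ω : EReal) := hlt
  have hlt' : ((d + m : ℕ) : ℝ) < ω := EReal.coe_lt_coe_iff.1 hlt2
  have hinf : {q : Fin m → ℤ | distIntVec (ev A q) < (supNorm q : ℝ) ^ (-ω)}.Infinite := hω
  -- for large norm the inequality contradicts the lower bound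
  have hlim : Filter.Tendsto (fun k : ℕ => (k : ℝ) ^ (-(ω - ((d + m : ℕ) : ℝ)))) Filter.atTop
      (nhds 0) := (tendsto_rpow_neg_atTop (by linarith)).comp tendsto_natCast_atTop_atTop
  obtain ⟨N, hN⟩ := Filter.eventually_atTop.1 (hlim.eventually_lt_const hc)
  apply hinf
  apply (box m (max N 1)).finite_toSet.subset
  intro q hq
  apply mem_box.2
  apply supNorm_le_iff.1
  by_contra hcon
  push Not at hcon
  have hq0 : q ≠ 0 := by
    rintro rfl
    have : supNorm (0 : Fin m → ℤ) = 0 := by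
      apply Nat.le_zero.1
      exact supNorm_le_iff.2 (by simp)
    omega
  have hpos : (0 : ℝ) < supNorm q := by exact_mod_cast supNorm_pos hq0
  have h1 := h q hq0
  have h2 : distIntVec (ev A q) < (supNorm q : ℝ) ^ (-ω) := hq
  have h3 := hN (supNorm q) (by omega)
  have h4 : (supNorm q : ℝ) ^ (-(ω - ((d + m : ℕ) : ℝ)))
      = (supNorm q : ℝ) ^ (d + m) * (supNorm q : ℝ) ^ (-ω) := by
    rw [← Real.rpow_natCast, ← Real.rpow_add hpos]
    congr 1; ring
  rw [h4] at h3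
  have h5 : (supNorm q : ℝ) ^ (d + m) * distIntVec (ev A q)
      ≤ (supNorm q : ℝ) ^ (d + m) * (supNorm q : ℝ) ^ (-ω) := by
    gcongr
  linarith

theorem divergence_of_low (hd : 0 < d) (hm : 0 < m) {A : Matrix (Fin (d + 1)) (Fin m) ℝ}
    (h : Low A) : GroshevDivergence A := by
  obtain ⟨c, hc⟩ := h.crit
  exact t_DIV (Y371.GA.t_UB t_BAD) Y182.GA.t_PIG t_LEV t_PROP Y371.GA.t_MAX Y371.GA.t_FAT
    d m hd hm A c hc

theorem convergence_iff (hd : 0 < d) (hm : 0 < m) {A : Matrix (Fin (d + 1)) (Fin m) ℝ} :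
    GroshevConvergence A ↔ Low A := by
  constructor
  · exact fun h => Y409.GA.t_NEC d m hd hm A h
  · intro h
    obtain ⟨c, hc⟩ := h.crit
    exact Y371.GA.t_CONV t_BAD d m hd hm A c hc

end Pool.Agent.Y762.GA
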