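import Pool.Agent.Y762.GA.Stm

/-!
The sum of `1 / ‖A q‖` at the critical exponent (adaptation of the starting files
`H639R3/G/Dio.lean` and `H639R3/G/Union.lean`).
-/

open MeasureTheory Set Metric
open Pool.Agent.H639R3.G

namespace Pool.Agent.Y762.GA

variable {d m : ℕ}

/-- the hypothesis without the upper bound for `β` -/
structure Hyp' (A : Matrix (Fin (d + 1)) (Fin m) ℝ) (β c : ℝ) : Prop where
  lo : 2 ^ m < β
  cpos : 0 < c
  cle : c ≤ 1
  bd : ∀ (j : ℕ) (q : Fin m → ℤ), q ≠ 0 → (∀ i, |q i| ≤ 2 ^ j) →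
    c / β ^ j ≤ distIntVec (ev A q)

theorem Crit.hyp (hd : 0 < d) {A : Matrix (Fin (d + 1)) (Fin m) ℝ} {c : ℝ} (h : Crit A c) :
    Hyp' A (2 ^ (d + m)) c := by
  obtain ⟨h1, h2, h3⟩ := h
  refine ⟨?_, h1, h2, fun j q hq hj => ?_⟩
  · exact pow_lt_pow_right₀ one_lt_two (by omega)
  · rw [← pow_mul, mul_comm (d + m) j]
    exact h3 j q hq hj

/-- the number of `q` with small `‖A qᵀ‖` -/
theorem card_small' {A : Matrix (Fin (d + 1)) (Fin m) ℝ} {β c : ℝ} (h : Hyp' A β c) {j t : ℕ}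
    (hjt : j ≤ t) :
    ((box m (2 ^ t)).filter (fun q => distIntVec (ev A q) ≤ c / 4 / β ^ j)).card
      ≤ (3 * 2 ^ (t - j)) ^ m := by
  have hβ : 0 < β := lt_trans (by positivity) h.lo
  refine le_trans ?_ (card_box_le (m := m) (N := 2 ^ (t - j)) Nat.one_le_two_pow)
  apply Finset.card_le_card_of_injOn (fun q i => q i / 2 ^ j)
  · intro q hq
    have hq1 := mem_box.1 (Finset.mem_filter.1 hq).1
    show (fun i => q i / 2 ^ j) ∈ (box m (2 ^ (t - j)) : Finset (Fin m → ℤ))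
    rw [mem_box]
    intro i
    have h1 := abs_le.1 (hq1 i)
    have h2 : ((2 ^ t : ℕ) : ℤ) = 2 ^ (t - j) * 2 ^ j := by
      rw [← pow_add, Nat.sub_add_cancel hjt]; push_cast; rfl
    rw [h2] at h1
    rw [abs_le]
    constructor
    · rw [Int.le_ediv_iff_mul_le (by positivity)]
      push_cast
      linarith [h1.1]
    · apply Int.ediv_le_of_le_mul (by positivity)
      push_cast
      exact h1.2
  · intro q hq q' hq' hqq
    have hq2 := (Finset.mem_filter.1 hq).2
    have hq2' := (Finset.mem_filter.1 hq').2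
    by_contra hne
    have hsub : q - q' ≠ 0 := sub_ne_zero.2 hne
    have hb : ∀ i, |(q - q') i| ≤ 2 ^ j := by
      intro i
      have e := congrFun hqq i
      simp only at e
      have e1 := Int.emod_add_mul_ediv (q i) (2 ^ j)
      have e2 := Int.emod_add_mul_ediv (q' i) (2 ^ j)
      have e3 := Int.emod_nonneg (q i) (b := 2 ^ j) (by positivity)
      have e4 := Int.emod_nonneg (q' i) (b := 2 ^ j) (by positivity)
      have e5 := Int.emod_lt_of_pos (q i) (b := 2 ^ j) (by positivity)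
      have e6 := Int.emod_lt_of_pos (q' i) (b := 2 ^ j) (by positivity)
      rw [e] at e1
      simp only [Pi.sub_apply]
      rw [abs_le]
      constructor <;> linarith
    have h1 := h.bd j _ hsub hb
    rw [ev_sub] at h1
    have h2 := distIntVec_sub_le (ev A q) (ev A q')
    have h3 : 0 < c / β ^ j := by have := h.cpos; positivity
    have h4 : c / 4 / β ^ j = c / β ^ j / 4 := by ring
    rw [h4] at hq2 hq2'
    linarith

theorem sum_inv_le' {A : Matrix (Fin (d + 1)) (Fin m) ℝ} {β c : ℝ} (h : Hyp' A β c) :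
    ∃ K : ℝ, 0 < K ∧ ∀ t : ℕ,
      ∑ q ∈ (box m (2 ^ t)).filter (fun q => q ≠ 0), 1 / distIntVec (ev A q) ≤ K * β ^ t := by
  classical
  have hβ : 0 < β := lt_trans (by positivity) h.lo
  have hc := h.cpos
  set ρ : ℕ → ℝ := fun j => c / 4 / β ^ j with hρdef
  have hρ : ∀ j, 0 < ρ j := fun j => by simp only [hρdef]; positivity
  set x := β / 2 ^ m with hx
  have hx1 : 1 < x := by rw [hx, lt_div_iff₀ (by positivity)]; simpa using h.lo
  refine ⟨4 / c * 3 ^ m * (1 + β / (x - 1)), ?_, ?_⟩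
  · have : 0 < x - 1 := by linarith
    positivity
  intro t
  have h1 : ∀ q ∈ (box m (2 ^ t)).filter (fun q => q ≠ 0), 1 / distIntVec (ev A q)
      ≤ 1 / ρ 0 + ∑ j ∈ Finset.range t,
        if distIntVec (ev A q) ≤ ρ j then 1 / ρ (j + 1) else 0 := by
    intro q hq
    apply inv_le_sum hρ
    have hq1 := Finset.mem_filter.1 hq
    have := h.bd t q hq1.2 (by simpa using mem_box.1 hq1.1)
    refine lt_of_lt_of_le ?_ this
    simp only [hρdef]
    gcongr
    linarith
  refine (Finset.sum_le_sum h1).trans ?_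
  have h2 : ∑ q ∈ (box m (2 ^ t)).filter (fun q => q ≠ 0), (1 / ρ 0 + ∑ j ∈ Finset.range t,
        if distIntVec (ev A q) ≤ ρ j then 1 / ρ (j + 1) else 0)
      ≤ ∑ q ∈ box m (2 ^ t), (1 / ρ 0 + ∑ j ∈ Finset.range t,
        if distIntVec (ev A q) ≤ ρ j then 1 / ρ (j + 1) else 0) := by
    apply Finset.sum_le_sum_of_subset_of_nonneg (Finset.filter_subset _ _)
    intro q _ _
    apply add_nonneg (one_div_pos.2 (hρ 0)).le
    apply Finset.sum_nonneg
    intro j _
    split_ifs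
    · exact (one_div_pos.2 (hρ _)).le
    · exact le_rfl
  refine h2.trans ?_
  rw [Finset.sum_add_distrib, Finset.sum_comm]
  have h3 : ∑ _q ∈ box m (2 ^ t), 1 / ρ 0 ≤ 4 / c * 3 ^ m * (2 ^ m) ^ t := by
    rw [Finset.sum_const, nsmul_eq_mul]
    have hc1 : ((box m (2 ^ t)).card : ℝ) ≤ (3 * 2 ^ t) ^ m := by
      exact_mod_cast card_box_le (m := m) (N := 2 ^ t) Nat.one_le_two_pow
    calc ((box m (2 ^ t)).card : ℝ) * (1 / ρ 0) ≤ (3 * 2 ^ t) ^ m * (1 / ρ 0) := by
          have := hρ 0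
          gcongr
      _ = 4 / c * 3 ^ m * (2 ^ m) ^ t := by
          simp only [hρdef, pow_zero, div_one]
          rw [mul_pow, ← pow_mul, ← pow_mul, mul_comm t m]
          field_simp
  have h4 : ∑ j ∈ Finset.range t, ∑ q ∈ box m (2 ^ t),
      (if distIntVec (ev A q) ≤ ρ j then 1 / ρ (j + 1) else 0)
      ≤ 4 / c * 3 ^ m * (β / (x - 1)) * β ^ t := by
    have h5 : ∀ j ∈ Finset.range t, ∑ q ∈ box m (2 ^ t),
        (if distIntVec (ev A q) ≤ ρ j then 1 / ρ (j + 1) else 0)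
        ≤ 4 / c * 3 ^ m * β * (2 ^ m) ^ t * x ^ j := by
      intro j hj
      have hjt : j ≤ t := (Finset.mem_range.1 hj).le
      rw [← Finset.sum_filter, Finset.sum_const, nsmul_eq_mul]
      have hc1 : (((box m (2 ^ t)).filter (fun q => distIntVec (ev A q) ≤ ρ j)).card : ℝ)
          ≤ (3 * 2 ^ (t - j)) ^ m := by
        exact_mod_cast card_small' h hjt
      have h2t : (2 : ℝ) ^ t = 2 ^ (t - j) * 2 ^ j := by
        rw [← pow_add, Nat.sub_add_cancel hjt]
      calc (((box m (2 ^ t)).filter (fun q => distIntVec (ev A q) ≤ ρ j)).card : ℝ)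
            * (1 / ρ (j + 1)) ≤ (3 * 2 ^ (t - j)) ^ m * (1 / ρ (j + 1)) := by
            have := hρ (j + 1)
            gcongr
        _ = 4 / c * 3 ^ m * β * (2 ^ m) ^ t * x ^ j := by
            simp only [hρdef, hx]
            rw [← pow_mul, mul_comm m t, pow_mul, h2t, div_pow, ← pow_mul, mul_comm m j, pow_mul,
              mul_pow, mul_pow]
            field_simp
            ring
    refine (Finset.sum_le_sum h5).trans ?_
    rw [← Finset.mul_sum, geom_sum_eq hx1.ne']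
    have hxpos : 0 < x - 1 := by linarith
    have h6 : (x ^ t - 1) / (x - 1) ≤ x ^ t / (x - 1) := by gcongr; linarith
    calc 4 / c * 3 ^ m * β * (2 ^ m) ^ t * ((x ^ t - 1) / (x - 1))
        ≤ 4 / c * 3 ^ m * β * (2 ^ m) ^ t * (x ^ t / (x - 1)) := by gcongr
      _ = 4 / c * 3 ^ m * (β / (x - 1)) * β ^ t := by
          have : β ^ t = (2 ^ m) ^ t * x ^ t := by
            rw [← mul_pow, hx]; congr 1; field_simp
          rw [this]; field_simp
  have h7 : ((2 : ℝ) ^ m) ^ t ≤ β ^ t := by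
    have := h.lo
    gcongr
  calc _ ≤ 4 / c * 3 ^ m * (2 ^ m) ^ t + 4 / c * 3 ^ m * (β / (x - 1)) * β ^ t := add_le_add h3 h4
    _ ≤ 4 / c * 3 ^ m * β ^ t + 4 / c * 3 ^ m * (β / (x - 1)) * β ^ t := by gcongr
    _ = _ := by ring

theorem sum_gq_le' {A : Matrix (Fin (d + 1)) (Fin m) ℝ} {β c : ℝ} (h : Hyp' A β c) :
    ∃ K : ℝ, 0 < K ∧ ∀ t : ℕ, ∑ q ∈ box m (2 ^ t), 1 / gq A q ≤ K * β ^ t := by
  classical
  obtain ⟨K, hK, hsum⟩ := sum_inv_le' h
  have hβ : 1 < β := lt_of_le_of_lt (one_le_pow₀ one_le_two) h.lo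
  refine ⟨K + 1, by positivity, fun t => ?_⟩
  have h0 : (0 : Fin m → ℤ) ∈ box m (2 ^ t) := by
    rw [mem_box]; intro i; simp
  rw [← Finset.add_sum_erase _ _ h0]
  have h1 : 1 / gq A (0 : Fin m → ℤ) = 1 := by simp [gq]
  have h2 : ∑ q ∈ (box m (2 ^ t)).erase 0, 1 / gq A q
      = ∑ q ∈ (box m (2 ^ t)).filter (fun q => q ≠ 0), 1 / distIntVec (ev A q) := by
    rw [show (box m (2 ^ t)).filter (fun q => q ≠ 0) = (box m (2 ^ t)).erase 0 by
      ext q; simp [and_comm]]
    apply Finset.sum_congr rfl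
    intro q hq
    rw [gq, if_neg (Finset.ne_of_mem_erase hq)]
  rw [h1, h2]
  have h3 : (1 : ℝ) ≤ β ^ t := one_le_pow₀ hβ.le
  have := hsum t
  nlinarith


theorem t_SUM : S_SUM := by
  intro d m hd A c h
  obtain ⟨K, hK, hs⟩ := sum_gq_le' (h.hyp hd)
  refine ⟨K, hK, fun t => ?_⟩
  have := hs t
  rwa [← pow_mul, mul_comm (d + m) t] at this

end Pool.Agent.Y762.GA
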